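import Mathlib
import Pool.Agent.H402W.Stage

/-! The cascade: the shell system with good parameters has no solution with bounded strain on
the whole time interval. -/

open Set Finset

namespace Pool.Agent.H402W

variable {n₀ : ℕ} {g μ slo shi κh η Q Λ r : ℕ → ℝ} {R T : ℝ} {a e σ κ : ℕ → ℝ → ℝ}

theorem cascade (S : Shell g μ slo shi κh R T a e σ κ) (Pr : Par n₀ g μ slo shi κh η Q Λ r R T)
    (h0 : r n₀ ≤ a n₀ 0) (h1 : a (n₀ + 1) 0 = δ g n₀) (hz : ∀ n, n₀ + 2 ≤ n → a n 0 = 0)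
    (hW : ∃ n, n₀ ≤ n ∧ ∀ t ∈ Icc 0 T, |W g a n t| + |W g a (n + 1) t| < g n * r n) : False := by
  have hA' : ∀ n, ∃ F : ℝ → ℝ, F 0 = 0 ∧ ∀ t ∈ Icc 0 T, HasDerivWithinAt F (a n t) (Icc 0 T) t :=
    fun n => exists_primitive S.T_nonneg (S.cont n)
  choose A hA0 hA using hA'
  have hP' : ∀ n, ∃ F : ℝ → ℝ, F 0 = 0 ∧
      ∀ t ∈ Icc 0 T, HasDerivWithinAt F (max (a n t) 0) (Icc 0 T) t :=
    fun n => exists_primitive S.T_nonneg (ContinuousOn.sup (S.cont n) continuousOn_const)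
  choose P hP0 hP using hP'
  have key : ∀ n, n₀ ≤ n → ∃ t0 ∈ Icc 0 T, t0 ≤ ∑ k ∈ Ico n₀ n, D g Λ r k ∧ r n ≤ a n t0 ∧
      a (n + 1) t0 = δ g n ∧ (∀ s ∈ Icc 0 t0, a (n + 1) s ≤ δ g n) ∧
      ∑ m ∈ range (n + 1), g m * P m t0 ≤ Q n := by
    intro n hn
    induction n, hn using Nat.le_induction with
    | base =>
      refine ⟨0, left_mem_Icc.mpr S.T_nonneg, by simp, h0, h1, ?_, ?_⟩
      · intro s hs
        have : s = 0 := le_antisymm hs.2 hs.1
        rw [this]; exact h1.le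
      · simp only [hP0, mul_zero, sum_const_zero]
        exact Pr.Q_nonneg n₀
    | succ n hn ih =>
      obtain ⟨t0, ht0, ht0s, hx, hy, hy', hQ⟩ := ih
      have hD : t0 + D g Λ r n ≤ T := by
        have := Pr.c9 (n + 1)
        rw [sum_Ico_succ_top hn] at this
        linarith
      obtain ⟨t1, ht1, hx1, hy1, hy1', hQ1⟩ := stage S Pr hA hP0 hP hz hn ht0 hD hx hy hy' hQ
      refine ⟨t1, ⟨ht0.1.trans ht1.1, ht1.2.trans hD⟩, ?_, hx1, hy1, hy1', hQ1⟩
      rw [sum_Ico_succ_top hn]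
      linarith [ht1.2]
  obtain ⟨n, hnn, hn⟩ := hW
  obtain ⟨t0, ht0, -, hx, -⟩ := key n hnn
  have h2 := hn t0 ht0
  have h3 := le_abs_self (W g a (n + 1) t0)
  have h5 := neg_abs_le (W g a n t0)
  rw [W_succ] at h2 h3
  have h4 : g n * r n ≤ g n * a n t0 := mul_le_mul_of_nonneg_left hx (S.g_pos n).le
  linarith

theorem prim {f : ℝ → ℝ} {T : ℝ} (hT : 0 ≤ T) (hf : ContinuousOn f (Icc 0 T)) :
    ∀ t ∈ Icc 0 T, HasDerivWithinAt (fun t => ∫ x in (0 : ℝ)..t, f x) (f t) (Icc 0 T) t := by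
  intro t ht
  let G : ℝ → ℝ := IccExtend hT (fun x => f x)
  have hG : Continuous G := by
    apply Continuous.Icc_extend'
    exact continuousOn_iff_continuous_domRestrict.mp hf
  have hGf : ∀ s ∈ Icc 0 T, G s = f s := fun s hs => by
    simp only [G]
    rw [IccExtend_of_mem hT _ hs]
  have h1 := intervalIntegral.integral_hasDerivAt_right (hG.intervalIntegrable 0 t)
    (hG.stronglyMeasurableAtFilter _ _) hG.continuousAt
  rw [hGf t ht] at h1
  have hI : ∀ s ∈ Icc 0 T, ∫ x in (0 : ℝ)..s, f x = ∫ x in (0 : ℝ)..s, G x := by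
    intro s hs
    refine intervalIntegral.integral_congr fun x hx => ?_
    rw [uIcc_of_le hs.1] at hx
    exact (hGf x ⟨hx.1, hx.2.trans hs.2⟩).symm
  exact h1.hasDerivWithinAt.congr (fun s hs => hI s hs) (hI t ht)

/-- upper bound of a mode by the positive parts of the previous ones -/
theorem Shell.up (S : Shell g μ slo shi κh R T a e σ κ) {A P : ℕ → ℝ → ℝ}
    (hA : ∀ n, ∀ t ∈ Icc 0 T, HasDerivWithinAt (A n) (a n t) (Icc 0 T) t)
    (hP0 : ∀ n, P n 0 = 0)
    (hP : ∀ n, ∀ t ∈ Icc 0 T, HasDerivWithinAt (P n) (max (a n t) 0) (Icc 0 T) t)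
    {k : ℕ} (hk0 : a k 0 = 0) (hsh : 0 ≤ shi k) {τ : ℝ} (hτ : τ ∈ Icc 0 T) {B : ℝ}
    (hB : ∑ m ∈ range k, g m * P m τ ≤ B) {t : ℝ} (ht : t ∈ Icc 0 τ) :
    a k t ≤ shi k * Real.exp B := by
  have hPmono : ∀ m, MonotoneOn (P m) (Icc 0 T) := fun m =>
    mono_of_deriv (hP m) (fun t _ => le_max_right _ _)
  have hPnn : ∀ m, ∀ t ∈ Icc 0 T, 0 ≤ P m t := fun m t ht => by
    have := hPmono m (left_mem_Icc.mpr S.T_nonneg) ht ht.1
    rwa [hP0] at this
  have hAP : ∀ m, ∀ s ∈ Icc 0 T, ∀ t ∈ Icc 0 T, s ≤ t → A m t - A m s ≤ P m t - P m s :=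
    fun m s hs t ht hst => le_of_deriv_le (hA m) (hP m) (fun t _ => le_max_left _ _) hs ht hst
  have hsub : Icc 0 τ ⊆ Icc 0 T := Icc_subset_Icc le_rfl hτ.2
  have h1 := gronwall_upper (f := a k) (h := shi k) (B := B) hsh
    (fun t ht => (S.deriv k t (hsub ht)).mono hsub)
    (Γ := fun t => ∑ m ∈ range k, g m * A m t - μ k * (t - 0)) (γ := fun t => W g a k t - μ k)
    (fun t ht => by
      refine HasDerivWithinAt.sub ?_ (hasDerivWithinAt_linear (μ k) 0 _ t)
      unfold W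
      exact HasDerivWithinAt.fun_sum fun m _ => ((hA m t (hsub ht)).mono hsub).const_mul (g m))
    (fun t ht => by
      have h1 := S.e_nonneg k t (hsub ht)
      have h2 := S.σ_hi k t (hsub ht)
      have h3 : 0 ≤ g k * e k t := mul_nonneg (S.g_pos k).le h1
      linarith)
    (fun s hs t ht hst => by
      refine le_trans ?_ hB
      have e1 : ∑ m ∈ range k, g m * A m t - ∑ m ∈ range k, g m * A m s
          ≤ ∑ m ∈ range k, g m * P m τ := by
        rw [← sum_sub_distrib]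
        refine sum_le_sum fun m _ => ?_
        rw [← mul_sub]
        refine mul_le_mul_of_nonneg_left ?_ (S.g_pos m).le
        have h1 := hAP m s (hsub hs) t (hsub ht) hst
        have h2 := hPnn m s (hsub hs)
        have h3 := hPmono m (hsub ht) hτ ht.2
        linarith
      have h2 : 0 ≤ μ k * (t - s) := mul_nonneg (S.μ_nonneg k) (by linarith)
      linarith)
    ht (by rw [hk0])
  rw [hk0, zero_add, sub_zero] at h1
  refine h1.trans (mul_le_mul_of_nonneg_right ?_ (Real.exp_pos _).le)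
  have h2 : t ≤ 1 := (ht.2.trans hτ.2).trans S.T_le
  nlinarith [ht.1]

/-- If the cascade does not reach all the modes before the time `Ts`, the strain is controlled. -/
theorem cascade_dom {Ts Tp : ℝ} (hTs : 0 < Ts)
    (hS : ∀ T', 0 ≤ T' → T' < Ts → Shell g μ slo shi κh R T' a e σ κ)
    (Pr : Par n₀ g μ slo shi κh η Q Λ r R Tp)
    (h0 : r n₀ ≤ a n₀ 0) (h1 : a (n₀ + 1) 0 = δ g n₀) (hz : ∀ n, n₀ + 2 ≤ n → a n 0 = 0)
    (hB : ∃ n, n₀ ≤ n ∧ ∀ t, 0 ≤ t → t < Ts → a n t < r n) :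
    ∃ N, ∀ t, 0 ≤ t → t < Ts → ∀ m, N ≤ m → W g a (m + 1) t ≤ w g R (N + 1) + Q m := by
  have hg : ∀ n, 0 < g n := (hS 0 le_rfl hTs).g_pos
  obtain ⟨A, hAdef⟩ : ∃ A : ℕ → ℝ → ℝ, A = fun n t => ∫ x in (0 : ℝ)..t, a n x := ⟨_, rfl⟩
  obtain ⟨P, hPdef⟩ : ∃ P : ℕ → ℝ → ℝ, P = fun n t => ∫ x in (0 : ℝ)..t, max (a n x) 0 := ⟨_, rfl⟩
  have hA : ∀ T', 0 ≤ T' → T' < Ts → ∀ n, ∀ t ∈ Icc 0 T',
      HasDerivWithinAt (A n) (a n t) (Icc 0 T') t := fun T' h1 h2 n => by
    rw [hAdef]; exact prim h1 ((hS T' h1 h2).cont n)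
  have hP : ∀ T', 0 ≤ T' → T' < Ts → ∀ n, ∀ t ∈ Icc 0 T',
      HasDerivWithinAt (P n) (max (a n t) 0) (Icc 0 T') t := fun T' h1 h2 n => by
    rw [hPdef]
    exact prim h1 (ContinuousOn.sup ((hS T' h1 h2).cont n) continuousOn_const)
  have hP0 : ∀ n, P n 0 = 0 := fun n => by rw [hPdef]; simp
  let St : ℕ → Prop := fun n => ∃ t0, 0 ≤ t0 ∧ t0 < Ts ∧ r n ≤ a n t0 ∧ a (n + 1) t0 = δ g n ∧
    (∀ s ∈ Icc 0 t0, a (n + 1) s ≤ δ g n) ∧ ∑ m ∈ range (n + 1), g m * P m t0 ≤ Q n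
  have hst0 : St n₀ := by
    refine ⟨0, le_rfl, hTs, h0, h1, ?_, ?_⟩
    · intro s hs
      have : s = 0 := le_antisymm hs.2 hs.1
      rw [this]; exact h1.le
    · simp only [hP0, mul_zero, sum_const_zero]
      exact Pr.Q_nonneg n₀
  obtain ⟨nB, hnB, hB⟩ := hB
  have hfail : ∃ n, n₀ ≤ n ∧ St n ∧ ¬ St (n + 1) := by
    by_contra hcon
    push Not at hcon
    have hall : ∀ n, n₀ ≤ n → St n := fun n hn => by
      induction n, hn using Nat.le_induction with
      | base => exact hst0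
      | succ k hk ih => exact hcon k hk ih
    obtain ⟨t0, h0', hlt, hr, _⟩ := hall nB hnB
    linarith [hB t0 h0' hlt]
  obtain ⟨n, hn, ⟨t0, ht00, ht0s, hx, hy, hy', hQ⟩, hno⟩ := hfail
  have hgood : ∀ T', t0 < T' → T' < Ts → (∀ s ∈ Icc 0 T', a (n + 2) s ≤ δ g (n + 1)) ∧
      ∑ m ∈ range (n + 2), g m * P m T' ≤ Q (n + 1) := by
    intro T' h1 h2
    have hT'0 : 0 ≤ T' := by linarith
    have S' := hS T' hT'0 h2
    have hD : T' < t0 + D g Λ r n := by
      by_contra hcon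
      push Not at hcon
      have hD0 : 0 ≤ D g Λ r n := by
        have h1 := hg n
        have h2 := Pr.r_pos n
        have h3 := Pr.Λ_ge n
        unfold D; positivity
      rcases stageR S' Pr (hA T' hT'0 h2) hP0 (hP T' hT'0 h2) hz hn ⟨ht00, h1.le⟩ (by linarith)
        le_rfl hcon hx hy hy' hQ with h | h
      · obtain ⟨t1, ht1, c1, c2, c3, c4⟩ := h
        exact hno ⟨t1, by linarith [ht1.1], by linarith [ht1.2], c1, c2, c3, c4⟩
      · exact lt_irrefl _ h.1
    rcases stageR S' Pr (hA T' hT'0 h2) hP0 (hP T' hT'0 h2) hz hn ⟨ht00, h1.le⟩ h1.le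
        hD.le le_rfl hx hy hy' hQ with h | h
    · obtain ⟨t1, ht1, c1, c2, c3, c4⟩ := h
      exact absurd ⟨t1, by linarith [ht1.1], by linarith [ht1.2], c1, c2, c3, c4⟩ hno
    · exact h.2
  have ind : ∀ T', t0 < T' → T' < Ts → ∀ m, n + 1 ≤ m → (∀ s ∈ Icc 0 T', a (m + 1) s ≤ δ g m) ∧
      ∑ l ∈ range (m + 1), g l * P l T' ≤ Q m := by
    intro T' h1 h2 m hm
    have hT'0 : 0 ≤ T' := by linarith
    have S' := hS T' hT'0 h2
    induction m, hm using Nat.le_induction with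
    | base => exact hgood T' h1 h2
    | succ m hm ih =>
      obtain ⟨i1, i2⟩ := ih
      have hmn : n₀ ≤ m := by omega
      have hδ : 0 < δ g m := by have := hg m; unfold δ; positivity
      have hP1 : P (m + 1) T' ≤ δ g m := by
        have h3 := le_of_deriv_le (hP T' hT'0 h2 (m + 1))
          (fun t _ => hasDerivWithinAt_linear (δ g m) 0 (Icc 0 T') t)
          (fun t ht => max_le (i1 t ht) hδ.le) (left_mem_Icc.mpr hT'0) (right_mem_Icc.mpr hT'0) hT'0
        rw [hP0] at h3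
        have h4 := S'.T_le
        nlinarith
      have hω : g (m + 1) * δ g m = g (m + 1) / g m * (1 / 128) := by
        have := (hg m).ne'
        unfold δ; field_simp
      have hsum : ∑ l ∈ range (m + 2), g l * P l T' ≤ Q m + g (m + 1) / g m * (1 / 128) := by
        rw [sum_range_succ, ← hω]
        have := mul_le_mul_of_nonneg_left hP1 (hg (m + 1)).le
        linarith
      have hRΛ : 0 ≤ R * Λ m / r m := by
        have h3 := Pr.r_pos m
        have h4 := Pr.Λ_ge m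
        have h5 := S'.R_ge
        positivity
      have hω0 : 0 ≤ g (m + 1) / g m := div_nonneg (hg _).le (hg _).le
      constructor
      · intro s hs
        have h3 := S'.up (hA T' hT'0 h2) hP0 (hP T' hT'0 h2) (k := m + 2) (hz (m + 2) (by omega))
          (Pr.shi_nonneg _) (right_mem_Icc.mpr hT'0) (B := Q m + 8 * R * Λ m / r m
            + g (m + 1) / g m * (1 / 128 + 1 / 32)) (by
              have : 0 ≤ 8 * R * Λ m / r m := by
                have e : 8 * R * Λ m / r m = 8 * (R * Λ m / r m) := by ring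
                rw [e]; positivity
              nlinarith) hs
        exact h3.trans (Pr.c6 m hmn).le
      · refine hsum.trans (le_trans ?_ (Pr.Q_succ m hmn))
        have e : 12 * R * Λ m / r m = 12 * (R * Λ m / r m) := by ring
        rw [e]
        nlinarith
  refine ⟨n + 1, fun t ht0 ht m hm => ?_⟩
  obtain ⟨T', hT1, hT2⟩ := exists_between (max_lt ht ht0s)
  have ht1 : t < T' := (le_max_left _ _).trans_lt hT1
  have ht2 : t0 < T' := (le_max_right _ _).trans_lt hT1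
  have S' := hS T' (by linarith) hT2
  have htT : t ∈ Icc 0 T' := ⟨ht0, ht1.le⟩
  induction m, hm using Nat.le_induction with
  | base =>
    have h3 := (abs_le.mp (S'.abs_W_le (n + 1 + 1) htT)).2
    linarith [Pr.Q_nonneg (n + 1)]
  | succ m hm ih =>
    have hmn : n₀ ≤ m := by omega
    have h3 := (ind T' ht2 hT2 m hm).1 t htT
    have hω : g (m + 1) * δ g m = g (m + 1) / g m * (1 / 128) := by
      have := (hg m).ne'
      unfold δ; field_simp
    have h4 := mul_le_mul_of_nonneg_left h3 (hg (m + 1)).le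
    rw [hω] at h4
    have h5 := Pr.Q_succ m hmn
    have h6 : 0 ≤ g (m + 1) / g m * (12 * R * Λ m / r m) := by
      have h3 := Pr.r_pos m
      have h4 := Pr.Λ_ge m
      have h5 := S'.R_ge
      have h6 := hg m
      have h7 := hg (m + 1)
      positivity
    rw [W_succ]
    linarith

end Pool.Agent.H402W
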