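import Mathlib
import Pool.Agent.H402W.Max
import Pool.Agent.H402W.Trans

/-! Joint smoothness in time and space. -/

open Set MeasureTheory Filter Topology
open scoped RealInnerProductSpace ContDiff

namespace Pool.Agent.H402W

theorem sum_bd {n : ℕ} {F G : ℕ → ℝ} {a b : ℝ} (hF : ∀ i ≤ n, 0 ≤ F i ∧ F i ≤ a)
    (hG : ∀ i ≤ n, 0 ≤ G i ∧ G i ≤ b) :
    ∑ i ∈ Finset.range (n + 1), (n.choose i : ℝ) * F i * G (n - i) ≤ 2 ^ n * (a * b) := by
  have ha : 0 ≤ a := (hF 0 (Nat.zero_le _)).1.trans (hF 0 (Nat.zero_le _)).2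
  have h1 : ∀ i ∈ Finset.range (n + 1),
      (n.choose i : ℝ) * F i * G (n - i) ≤ (n.choose i : ℝ) * (a * b) := by
    intro i hi
    have hi' : i ≤ n := Nat.lt_succ_iff.mp (Finset.mem_range.mp hi)
    obtain ⟨f0, f1⟩ := hF i hi'
    obtain ⟨g0, g1⟩ := hG (n - i) (Nat.sub_le _ _)
    rw [mul_assoc]
    exact mul_le_mul_of_nonneg_left (mul_le_mul f1 g1 g0 ha) (by positivity)
  refine (Finset.sum_le_sum h1).trans (le_of_eq ?_)
  rw [← Finset.sum_mul]
  have h2 : ∑ i ∈ Finset.range (n + 1), (n.choose i : ℝ) = 2 ^ n := by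
    exact_mod_cast Nat.sum_range_choose n
  rw [h2]

theorem mul_bd {E : Type*} [NormedAddCommGroup E] [NormedSpace ℝ E] {f g : E → ℝ} {n : ℕ}
    (hf : ContDiff ℝ n f) (hg : ContDiff ℝ n g) {x : E} {a b : ℝ}
    (ha : ∀ i ≤ n, ‖iteratedFDeriv ℝ i f x‖ ≤ a) (hb : ∀ i ≤ n, ‖iteratedFDeriv ℝ i g x‖ ≤ b) :
    ‖iteratedFDeriv ℝ n (fun y => f y * g y) x‖ ≤ 2 ^ n * (a * b) :=
  (norm_iteratedFDeriv_mul_le hf hg x le_rfl).trans
    (sum_bd (F := fun i => ‖iteratedFDeriv ℝ i f x‖) (G := fun i => ‖iteratedFDeriv ℝ i g x‖)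
      (fun i hi => ⟨norm_nonneg _, ha i hi⟩) (fun i hi => ⟨norm_nonneg _, hb i hi⟩))

theorem smul_bd {E F : Type*} [NormedAddCommGroup E] [NormedSpace ℝ E] [NormedAddCommGroup F]
    [NormedSpace ℝ F] {f : E → ℝ} {g : E → F} {n : ℕ}
    (hf : ContDiff ℝ n f) (hg : ContDiff ℝ n g) {x : E} {a b : ℝ}
    (ha : ∀ i ≤ n, ‖iteratedFDeriv ℝ i f x‖ ≤ a) (hb : ∀ i ≤ n, ‖iteratedFDeriv ℝ i g x‖ ≤ b) :
    ‖iteratedFDeriv ℝ n (fun y => f y • g y) x‖ ≤ 2 ^ n * (a * b) :=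
  (norm_iteratedFDeriv_smul_le hf hg x le_rfl).trans
    (sum_bd (F := fun i => ‖iteratedFDeriv ℝ i f x‖) (G := fun i => ‖iteratedFDeriv ℝ i g x‖)
      (fun i hi => ⟨norm_nonneg _, ha i hi⟩) (fun i hi => ⟨norm_nonneg _, hb i hi⟩))

theorem ode_smooth {β : ℕ → ℕ → ℝ} {P : ℕ → ℕ → ℕ × ℕ} {lm Ω G : ℕ → ℝ} {L A : ℝ}
    (hΩ : ∀ k, 1 ≤ Ω k) (hG : ∀ i, 1 ≤ G i) (hL : 0 ≤ L)
    (hP : ∀ k i, Ω (P k i).1 * Ω (P k i).2 ≤ Ω k * G i ^ 2)
    (hlm : ∀ k, |lm k| ≤ L * Ω k ^ 4)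
    (hβ : ∀ q : ℕ, ∃ S, ∀ k, Summable (fun i => |β k i| * G i ^ q) ∧
      ∑' i, |β k i| * G i ^ q ≤ S)
    {h : ℝ → ℝ} (hh : ContDiff ℝ ∞ h) (hhb : ∀ j : ℕ, ∃ H, ∀ s, ‖iteratedFDeriv ℝ j h s‖ ≤ H)
    {w : ℕ → ℝ → ℝ} (hw : ∀ k s, |w k s| ≤ A)
    (hd : ∀ k s, HasDerivAt (w k) (h s * (-(lm k) * w k s + Nl β P k (fun j => w j s))) s) :
    ∀ j : ℕ, (∀ k, ContDiff ℝ j (w k)) ∧ ∃ (C : ℝ) (p : ℕ), 0 ≤ C ∧
      ∀ k s, ∀ i ≤ j, ‖iteratedFDeriv ℝ i (w k) s‖ ≤ C * Ω k ^ p := by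
  intro j
  induction j with
  | zero =>
    refine ⟨fun k => ?_, |A|, 0, abs_nonneg _, fun k s i hi => ?_⟩
    · rw [Nat.cast_zero, contDiff_zero]
      exact continuous_iff_continuousAt.mpr fun s => (hd k s).continuousAt
    · obtain rfl : i = 0 := by omega
      rw [norm_iteratedFDeriv_zero, Real.norm_eq_abs, pow_zero, mul_one]
      exact (hw k s).trans (le_abs_self A)
  | succ j ih =>
    obtain ⟨hc, C, p, hC, hb⟩ := ih
    obtain ⟨S, hS⟩ := hβ (2 * p)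
    choose H hH using hhb
    set Hm := ∑ i ∈ Finset.range (j + 1), |H i| with hHm
    have hHb : ∀ s, ∀ i ≤ j, ‖iteratedFDeriv ℝ i h s‖ ≤ Hm := by
      intro s i hi
      refine (hH i s).trans ((le_abs_self _).trans ?_)
      exact Finset.single_le_sum (f := fun i => |H i|) (fun _ _ => abs_nonneg _)
        (Finset.mem_range.mpr (by omega))
    have hHm0 : 0 ≤ Hm := Finset.sum_nonneg fun _ _ => abs_nonneg _
    have hS0 : 0 ≤ S := (tsum_nonneg fun i => by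
      have := hG i; positivity).trans (hS 0).2
    have hΩp : ∀ k, 0 ≤ Ω k := fun k => by linarith [hΩ k]
    have hterm : ∀ k i s, ∀ l ≤ j,
        ‖iteratedFDeriv ℝ l (fun s => β k i * (w (P k i).1 s * w (P k i).2 s)) s‖ ≤
        (|β k i| * G i ^ (2 * p)) * (2 ^ j * C ^ 2 * Ω k ^ p) := by
      intro k i s l hl
      have c1 : ContDiff ℝ l (w (P k i).1) := (hc _).of_le (by exact_mod_cast hl)
      have c2 : ContDiff ℝ l (w (P k i).2) := (hc _).of_le (by exact_mod_cast hl)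
      have e1 : (fun s => β k i * (w (P k i).1 s * w (P k i).2 s))
          = β k i • (fun s => w (P k i).1 s * w (P k i).2 s) := rfl
      rw [e1, iteratedFDeriv_const_smul_apply (c1.mul c2).contDiffAt, norm_smul,
        Real.norm_eq_abs, mul_assoc]
      refine mul_le_mul_of_nonneg_left ?_ (abs_nonneg _)
      have h1 := mul_bd c1 c2 (x := s) (fun m hm => hb _ s m (hm.trans hl))
        (fun m hm => hb _ s m (hm.trans hl))
      have h2 : (2 : ℝ) ^ l ≤ 2 ^ j := pow_le_pow_right₀ (by norm_num) hl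
      have h3 : (Ω (P k i).1 * Ω (P k i).2) ^ p ≤ (Ω k * G i ^ 2) ^ p :=
        pow_le_pow_left₀ (mul_nonneg (hΩp _) (hΩp _)) (hP k i) p
      have h4 : 0 ≤ (Ω (P k i).1 * Ω (P k i).2) ^ p :=
        pow_nonneg (mul_nonneg (hΩp _) (hΩp _)) p
      calc ‖iteratedFDeriv ℝ l (fun s => w (P k i).1 s * w (P k i).2 s) s‖
          ≤ 2 ^ l * (C * Ω (P k i).1 ^ p * (C * Ω (P k i).2 ^ p)) := h1
        _ = 2 ^ l * (C ^ 2 * (Ω (P k i).1 * Ω (P k i).2) ^ p) := by rw [mul_pow]; ring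
        _ ≤ 2 ^ j * (C ^ 2 * (Ω k * G i ^ 2) ^ p) :=
            mul_le_mul h2 (mul_le_mul_of_nonneg_left h3 (sq_nonneg C))
              (mul_nonneg (sq_nonneg C) h4) (by positivity)
        _ = _ := by rw [mul_pow, ← pow_mul]; ring
    have hsm : ∀ k, Summable (fun i => (|β k i| * G i ^ (2 * p)) * (2 ^ j * C ^ 2 * Ω k ^ p)) :=
      fun k => (hS k).1.mul_right _
    have hti : ∀ k i, ContDiff ℝ (j : ℕ∞)
        (fun s => β k i * (w (P k i).1 s * w (P k i).2 s)) := by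
      intro k i
      exact contDiff_const.mul ((hc _).mul (hc _))
    have hN : ∀ k, ContDiff ℝ j (fun s => Nl β P k (fun j => w j s)) := by
      intro k
      unfold Nl
      exact contDiff_tsum (N := (j : ℕ∞))
        (v := fun _ i => (|β k i| * G i ^ (2 * p)) * (2 ^ j * C ^ 2 * Ω k ^ p))
        (hti k) (fun l _ => hsm k) (fun l i s hl => hterm k i s l (by exact_mod_cast hl))
    have hNb : ∀ k s, ∀ l ≤ j, ‖iteratedFDeriv ℝ l (fun s => Nl β P k (fun j => w j s)) s‖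
        ≤ S * (2 ^ j * C ^ 2 * Ω k ^ p) := by
      intro k s l hl
      unfold Nl
      rw [iteratedFDeriv_tsum_apply (N := (j : ℕ∞))
        (v := fun _ i => (|β k i| * G i ^ (2 * p)) * (2 ^ j * C ^ 2 * Ω k ^ p))
        (hti k) (fun l _ => hsm k) (fun l i s hl => hterm k i s l (by exact_mod_cast hl))
        (by exact_mod_cast hl)]
      refine (tsum_of_norm_bounded (hsm k).hasSum (fun i => hterm k i s l hl)).trans ?_
      rw [tsum_mul_right]
      have := hΩp k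
      exact mul_le_mul_of_nonneg_right (hS k).2 (by positivity)
    set F : ℕ → ℝ → ℝ := fun k s => h s * (-(lm k) * w k s + Nl β P k (fun j => w j s)) with hF
    have hin : ∀ k, ContDiff ℝ j (fun s => -(lm k) * w k s + Nl β P k (fun j => w j s)) :=
      fun k => (contDiff_const.mul (hc k)).add (hN k)
    have hhj : ContDiff ℝ j h := hh.of_le (by exact_mod_cast le_top)
    have hFc : ∀ k, ContDiff ℝ j (F k) := fun k => hhj.mul (hin k)
    have hderiv : ∀ k, deriv (w k) = F k := fun k => funext fun s => (hd k s).deriv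
    set C' := L * C + S * (2 ^ j * C ^ 2) with hC'
    have hC'0 : 0 ≤ C' := by positivity
    have hinb : ∀ k s, ∀ l ≤ j,
        ‖iteratedFDeriv ℝ l (fun s => -(lm k) * w k s + Nl β P k (fun j => w j s)) s‖
        ≤ C' * Ω k ^ (p + 4) := by
      intro k s l hl
      have c1 : ContDiff ℝ l (w k) := (hc _).of_le (by exact_mod_cast hl)
      have c2 : ContDiff ℝ l (fun s => Nl β P k (fun j => w j s)) :=
        (hN k).of_le (by exact_mod_cast hl)
      have e1 : (fun s => -(lm k) * w k s + Nl β P k (fun j => w j s))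
          = (-(lm k)) • (w k) + (fun s => Nl β P k (fun j => w j s)) := rfl
      have c3 : ContDiff ℝ l (-(lm k) • w k) := by
        have e2 : -(lm k) • w k = fun y => -(lm k) * w k y := rfl
        rw [e2]
        exact contDiff_const.mul c1
      rw [e1, iteratedFDeriv_add_apply c3.contDiffAt c2.contDiffAt,
        iteratedFDeriv_const_smul_apply c1.contDiffAt]
      refine (norm_add_le _ _).trans ?_
      rw [norm_smul, Real.norm_eq_abs, abs_neg]
      have h1 := hb k s l hl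
      have h2 := hNb k s l hl
      have h3 := hlm k
      have h4 : Ω k ^ p ≤ Ω k ^ (p + 4) := pow_le_pow_right₀ (hΩ k) (by omega)
      have h5 : 0 ≤ Ω k ^ p := pow_nonneg (hΩp k) _
      have h6 : |lm k| * ‖iteratedFDeriv ℝ l (w k) s‖ ≤ L * Ω k ^ 4 * (C * Ω k ^ p) :=
        mul_le_mul h3 h1 (norm_nonneg _) (mul_nonneg hL (pow_nonneg (hΩp k) _))
      have h7 : S * (2 ^ j * C ^ 2 * Ω k ^ p) ≤ S * (2 ^ j * C ^ 2) * Ω k ^ (p + 4) := by
        rw [← mul_assoc]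
        exact mul_le_mul_of_nonneg_left h4 (by positivity)
      calc _ ≤ L * Ω k ^ 4 * (C * Ω k ^ p) + S * (2 ^ j * C ^ 2) * Ω k ^ (p + 4) :=
            add_le_add h6 (h2.trans h7)
        _ = _ := by rw [hC', pow_add]; ring
    have hFb : ∀ k s, ∀ l ≤ j, ‖iteratedFDeriv ℝ l (F k) s‖
        ≤ 2 ^ j * (Hm * (C' * Ω k ^ (p + 4))) := by
      intro k s l hl
      refine (mul_bd (hhj.of_le (by exact_mod_cast hl)) ((hin k).of_le (by exact_mod_cast hl))
        (x := s) (fun i hi => hHb s i (hi.trans hl))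
        (fun i hi => hinb k s i (hi.trans hl))).trans ?_
      have := hΩp k
      exact mul_le_mul_of_nonneg_right (pow_le_pow_right₀ (by norm_num) hl) (by positivity)
    refine ⟨fun k => ?_, C + 2 ^ j * (Hm * C'), p + 4, by positivity, fun k s i hi => ?_⟩
    · have e : ((j + 1 : ℕ) : ℕ∞ω) = (j : ℕ∞ω) + 1 := by push_cast; rfl
      rw [e, contDiff_succ_iff_deriv]
      refine ⟨fun s => (hd k s).differentiableAt, fun hω => ?_, ?_⟩
      · exact absurd hω (by simp)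
      · rw [hderiv k]; exact hFc k
    · have hk := hΩp k
      have h4 : Ω k ^ p ≤ Ω k ^ (p + 4) := pow_le_pow_right₀ (hΩ k) (by omega)
      have h5 : 0 ≤ Ω k ^ (p + 4) := pow_nonneg hk _
      cases i with
      | zero =>
        refine (hb k s 0 (Nat.zero_le _)).trans ?_
        calc C * Ω k ^ p ≤ C * Ω k ^ (p + 4) := mul_le_mul_of_nonneg_left h4 hC
          _ ≤ _ := by
            refine mul_le_mul_of_nonneg_right ?_ h5
            have : 0 ≤ 2 ^ j * (Hm * C') := by positivity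
            linarith
      | succ m =>
        have hm : m ≤ j := by omega
        rw [norm_iteratedFDeriv_eq_norm_iteratedDeriv, iteratedDeriv_succ', hderiv k,
          ← norm_iteratedFDeriv_eq_norm_iteratedDeriv]
        refine (hFb k s m hm).trans ?_
        have : 0 ≤ C * Ω k ^ (p + 4) := mul_nonneg hC h5
        calc 2 ^ j * (Hm * (C' * Ω k ^ (p + 4))) = 2 ^ j * (Hm * C') * Ω k ^ (p + 4) := by ring
          _ ≤ _ := by rw [add_mul]; linarith

theorem fst_bd {F : Type*} [NormedAddCommGroup F] [NormedSpace ℝ F] {f : ℝ → F} {n : ℕ}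
    (hf : ContDiff ℝ n f) {a : ℝ} (ha : ∀ s, ‖iteratedFDeriv ℝ n f s‖ ≤ a) (z : ℝ × V) :
    ‖iteratedFDeriv ℝ n (fun z : ℝ × V => f z.1) z‖ ≤ a := by
  have e : (fun z : ℝ × V => f z.1) = f ∘ (ContinuousLinearMap.fst ℝ ℝ V) := rfl
  rw [e, ContinuousLinearMap.iteratedFDeriv_comp_right _ hf _ le_rfl]
  refine (ContinuousMultilinearMap.norm_compContinuousLinearMap_le _ _).trans ?_
  have h1 : ∏ _i : Fin n, ‖ContinuousLinearMap.fst ℝ ℝ V‖ ≤ 1 := by
    refine Finset.prod_le_one (fun _ _ => norm_nonneg _) fun _ _ => ?_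
    exact ContinuousLinearMap.norm_fst_le ℝ ℝ V
  calc _ ≤ a * 1 := mul_le_mul (ha _) h1 (Finset.prod_nonneg fun _ _ => norm_nonneg _)
        ((norm_nonneg _).trans (ha 0))
    _ = a := mul_one a

theorem snd_bd {F : Type*} [NormedAddCommGroup F] [NormedSpace ℝ F] {f : V → F} {n : ℕ}
    (hf : ContDiff ℝ n f) {a : ℝ} (ha : ∀ s, ‖iteratedFDeriv ℝ n f s‖ ≤ a) (z : ℝ × V) :
    ‖iteratedFDeriv ℝ n (fun z : ℝ × V => f z.2) z‖ ≤ a := by
  have e : (fun z : ℝ × V => f z.2) = f ∘ (ContinuousLinearMap.snd ℝ ℝ V) := rfl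
  rw [e, ContinuousLinearMap.iteratedFDeriv_comp_right _ hf _ le_rfl]
  refine (ContinuousMultilinearMap.norm_compContinuousLinearMap_le _ _).trans ?_
  have h1 : ∏ _i : Fin n, ‖ContinuousLinearMap.snd ℝ ℝ V‖ ≤ 1 := by
    refine Finset.prod_le_one (fun _ _ => norm_nonneg _) fun _ _ => ?_
    exact ContinuousLinearMap.norm_snd_le ℝ ℝ V
  calc _ ≤ a * 1 := mul_le_mul (ha _) h1 (Finset.prod_nonneg fun _ _ => norm_nonneg _)
        ((norm_nonneg _).trans (ha 0))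
    _ = a := mul_one a

theorem joint_sum {M b : ℕ → ℝ} {φ : V → V} (hφ : ContDiff ℝ ∞ φ)
    (hφb : ∀ j : ℕ, ∃ C, ∀ x, ‖iteratedFDeriv ℝ j φ x‖ ≤ C) (hM : ∀ n, 1 ≤ M n)
    (hb : ∀ j : ℕ, Summable (fun n => M n ^ j * b n)) (hb0 : ∀ n, 0 ≤ b n)
    {w : ℕ → ℝ → ℝ} (hw : ∀ j : ℕ, (∀ n, ContDiff ℝ j (w n)) ∧ ∃ (C : ℝ) (p : ℕ), 0 ≤ C ∧
      ∀ n s, ∀ i ≤ j, ‖iteratedFDeriv ℝ i (w n) s‖ ≤ C * M n ^ p) :
    ContDiff ℝ ∞ (fun z : ℝ × V => ∑' n, (w n z.1 * b n) • sc (M n) φ z.2) := by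
  have hwc : ∀ n, ContDiff ℝ ∞ (w n) := fun n =>
    contDiff_infty.mpr fun j => (hw j).1 n
  choose C p hC hCb using fun j => (hw j).2
  choose D hD using hφb
  have hMp : ∀ n, 0 < M n := fun n => by linarith [hM n]
  set Dm : ℕ → ℝ := fun m => ∑ i ∈ Finset.range (m + 1), |D i| with hDm
  have hDm0 : ∀ m, 0 ≤ Dm m := fun m => Finset.sum_nonneg fun _ _ => abs_nonneg _
  refine contDiff_tsum (N := ⊤)
    (v := fun m n => (2 ^ m * C m * Dm m) * (M n ^ (p m + (3 + 2 * m)) * b n)) ?_ ?_ ?_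
  · intro n
    have h1 : ContDiff ℝ ∞ (sc (M n) φ) := sc_cd hφ
    have h2 := hwc n
    exact ((h2.comp contDiff_fst).mul contDiff_const).smul (h1.comp contDiff_snd)
  · intro m _
    exact (hb _).mul_left _
  · intro m n z _
    have c1 : ContDiff ℝ m (w n) := (hwc n).of_le (by exact_mod_cast le_top)
    have c2 : ContDiff ℝ m (sc (M n) φ) := (sc_cd hφ).of_le (by exact_mod_cast le_top)
    have d1 : ∀ i ≤ m, ‖iteratedFDeriv ℝ i (fun z : ℝ × V => w n z.1 * b n) z‖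
        ≤ C m * M n ^ (p m) * b n := by
      intro i hi
      have c1' : ContDiff ℝ i (w n) := c1.of_le (by exact_mod_cast hi)
      refine fst_bd (f := fun s => w n s * b n) (c1'.mul contDiff_const) (fun s => ?_) z
      have e1 : (fun s => w n s * b n) = (b n) • (w n) := by
        ext s; simp [mul_comm]
      rw [e1, iteratedFDeriv_const_smul_apply c1'.contDiffAt, norm_smul, Real.norm_eq_abs,
        abs_of_nonneg (hb0 n), mul_comm]
      exact mul_le_mul_of_nonneg_right (hCb m n s i hi) (hb0 n)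
    have d2 : ∀ i ≤ m, ‖iteratedFDeriv ℝ i (fun z : ℝ × V => sc (M n) φ z.2) z‖
        ≤ M n ^ (3 + 2 * m) * Dm m := by
      intro i hi
      refine snd_bd (c2.of_le (by exact_mod_cast hi)) (fun x => ?_) z
      refine (sc_iter (hMp n).le hφ (hD i) x).trans ?_
      have h1 : M n ^ (3 + 2 * i) ≤ M n ^ (3 + 2 * m) := pow_le_pow_right₀ (hM n) (by omega)
      have h2 : D i ≤ Dm m := (le_abs_self _).trans
        (Finset.single_le_sum (f := fun i => |D i|) (fun _ _ => abs_nonneg _)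
          (Finset.mem_range.mpr (by omega)))
      have h3 : 0 ≤ D i := (norm_nonneg _).trans (hD i 0)
      have h4 := (hMp n).le
      exact mul_le_mul h1 h2 h3 (by positivity)
    have e1 : ContDiff ℝ m (fun z : ℝ × V => w n z.1 * b n) :=
      (c1.comp contDiff_fst).mul contDiff_const
    have e2 : ContDiff ℝ m (fun z : ℝ × V => sc (M n) φ z.2) := c2.comp contDiff_snd
    refine (smul_bd e1 e2 d1 d2).trans (le_of_eq ?_)
    rw [pow_add]; ring

/-- the frequencies of the coefficients -/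
noncomputable def Om (lam : ℝ) : ℕ → ℝ
  | 0 => 1
  | (n + 1) => MM lam n

section

variable {φ ρ ψ : V → V} {x₁ : V} {ν T lam R c0 : ℝ} {vd : V → V} {ks Ns : ℕ}

/-- derivatives of all orders of the coefficients after a change of time -/
theorem Good.time_smooth (G : Good φ ρ ψ x₁ ν T lam R c0 vd ks Ns) {A : ℝ}
    {h : ℝ → ℝ} (hh : ContDiff ℝ ∞ h) (hhb : ∀ j : ℕ, ∃ H, ∀ s, ‖iteratedFDeriv ℝ j h s‖ ≤ H)
    {w : ℕ → ℝ → ℝ} (hw : ∀ k s, |w k s| ≤ A)
    (hd : ∀ k s, HasDerivAt (w k) (h s * (-(lmd φ ψ ρ lam ν k) * w k s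
      + Nl (Bt φ ψ ρ lam) PI k (fun j => w j s))) s) :
    ∀ j : ℕ, (∀ k, ContDiff ℝ j (w k)) ∧ ∃ (C : ℝ) (p : ℕ), 0 ≤ C ∧
      ∀ k s, ∀ i ≤ j, ‖iteratedFDeriv ℝ i (w k) s‖ ≤ C * Om lam k ^ p := by
  have hq : 0 < -hf φ φ := by linarith [G.P.q_pos]
  have hβ : 0 < -hf ρ ρ := by linarith [G.P.β_pos]
  have hF := φ_pos G.P
  have hGp := PP_ip_pos G.P G.S
  have hΩ : ∀ k, 1 ≤ Om lam k := by
    intro k
    cases k with
    | zero => exact le_rfl
    | succ n => exact G.M1 n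
  set L := |lmd φ ψ ρ lam ν 0| + |ν * dir φ φ / ip φ φ| with hL
  refine ode_smooth (β := Bt φ ψ ρ lam) (P := PI) (lm := lmd φ ψ ρ lam ν) (Ω := Om lam)
    (G := MM lam) (L := L) (A := A) hΩ G.M1 (by positivity) ?_ ?_ ?_ hh hhb hw hd
  · intro k i
    have hi := G.M1 i
    have hi2 : 1 ≤ MM lam i ^ 2 := one_le_pow₀ hi
    cases k with
    | zero =>
      show 1 * MM lam i ≤ 1 * MM lam i ^ 2
      nlinarith
    | succ n =>
      have hn := G.M1 n
      simp only [PI]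
      split_ifs with h1 h2
      · show MM lam i * MM lam n ≤ MM lam n * MM lam i ^ 2
        have : MM lam i ≤ MM lam i ^ 2 := by nlinarith
        rw [mul_comm (MM lam i)]
        exact mul_le_mul_of_nonneg_left this (by linarith)
      · show (1 : ℝ) * 1 ≤ MM lam n * MM lam i ^ 2
        exact mul_le_mul hn hi2 (by norm_num) (by linarith)
      · show MM lam i * MM lam i ≤ MM lam n * MM lam i ^ 2
        rw [← sq]
        exact le_mul_of_one_le_left (by positivity) hn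
  · intro k
    cases k with
    | zero =>
      show |lmd φ ψ ρ lam ν 0| ≤ L * 1 ^ 4
      rw [one_pow, mul_one, hL]
      linarith [abs_nonneg (ν * dir φ φ / ip φ φ)]
    | succ n =>
      show |ν * (MM lam n ^ 4 * dir φ φ) / ip φ φ| ≤ L * MM lam n ^ 4
      have e : ν * (MM lam n ^ 4 * dir φ φ) / ip φ φ
          = (ν * dir φ φ / ip φ φ) * MM lam n ^ 4 := by ring
      have hM4 : 0 ≤ MM lam n ^ 4 := by positivity
      rw [e, abs_mul, abs_of_nonneg hM4]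
      refine mul_le_mul_of_nonneg_right ?_ hM4
      rw [hL]
      linarith [abs_nonneg (lmd φ ψ ρ lam ν 0)]
  · intro q
    set K := (-hf φ φ) / ip φ φ + (-hf ρ ρ) / ip φ φ
      + (-hf ρ ρ) / ip (PP ψ ρ (MM lam) (EE lam)) (PP ψ ρ (MM lam) (EE lam)) with hK
    have hs := (bb_summable G.one (5 + q)).mul_left K
    have hle : ∀ k i, |Bt φ ψ ρ lam k i| * MM lam i ^ q
        ≤ K * (MM lam i ^ (5 + q) * bb lam i) := by
      intro k i
      have h1 := bet_le hq.le hβ.le hF hGp (by linarith [G.one] : (0 : ℝ) ≤ lam) G.S G.half k i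
      have h2 : 0 ≤ MM lam i ^ q := by have := G.M1 i; positivity
      calc |Bt φ ψ ρ lam k i| * MM lam i ^ q ≤ (K * (MM lam i ^ 5 * bb lam i)) * MM lam i ^ q :=
            mul_le_mul_of_nonneg_right h1 h2
        _ = _ := by rw [pow_add]; ring
    refine ⟨∑' i, K * (MM lam i ^ (5 + q) * bb lam i), fun k => ?_⟩
    have hsm : Summable (fun i => |Bt φ ψ ρ lam k i| * MM lam i ^ q) :=
      Summable.of_nonneg_of_le (fun i => by have := G.M1 i; positivity) (hle k) hs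
    exact ⟨hsm, hsm.tsum_le_tsum (hle k) hs⟩

theorem Good.φbd (G : Good φ ρ ψ x₁ ν T lam R c0 vd ks Ns) :
    ∀ j : ℕ, ∃ C, ∀ x, ‖iteratedFDeriv ℝ j φ x‖ ≤ C := by
  intro k
  have hc : HasCompactSupport (iteratedFDeriv ℝ k φ) := G.P.φcs.iteratedFDeriv k
  exact (G.P.φs.continuous_iteratedFDeriv (m := k)
    (by exact_mod_cast le_top)).bounded_above_of_compact_support hc

/-- the solution is determined by its coefficients -/
theorem Good.ident (G : Good φ ρ ψ x₁ ν T lam R c0 vd ks Ns) {v : V → V} {A : ℝ}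
    (hv : InX (Fam φ ψ ρ (MM lam) (EE lam)) v) (hA : ∀ k, |co φ ψ ρ lam v k| ≤ A) (x : V) :
    v x = co φ ψ ρ lam v 0 • PP ψ ρ (MM lam) (EE lam) x
      + ∑' n, (co φ ψ ρ lam v (n + 1) * bb lam n) • sc (MM lam n) φ x := by
  have hα : ∀ n, |af φ (MM lam) v n| ≤ A * bb lam n := by
    intro n
    have h1 : |af φ (MM lam) v n / bb lam n| ≤ A := hA (n + 1)
    rwa [abs_div, abs_of_pos (bb_pos lam n), div_le_iff₀ (bb_pos lam n)] at h1
  have h1 := congrFun (eq_Uf G.P G.S G.Wt hv hα) x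
  refine h1.trans ?_
  show cf ψ ρ (MM lam) (EE lam) v • PP ψ ρ (MM lam) (EE lam) x
    + ∑' n, af φ (MM lam) v n • sc (MM lam n) φ x = _
  congr 1
  refine tsum_congr fun n => ?_
  congr 1
  show _ = af φ (MM lam) v n / bb lam n * bb lam n
  rw [div_mul_cancel₀ _ (bb_pos lam n).ne']

/-- joint smoothness of the solution inside the interval of existence -/
theorem Good.joint (G : Good φ ρ ψ x₁ ν T lam R c0 vd ks Ns) {T' : ℝ} (hT' : T' ≤ T)
    {u : ℝ → V → V} (hu : GSol ν (Fam φ ψ ρ (MM lam) (EE lam)) vd T' u) :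
    ContDiffOn ℝ ∞ (fun z : ℝ × V => u z.1 z.2) (Ioo 0 T' ×ˢ univ) := by
  rintro ⟨t₀, x₀⟩ ⟨ht₀, -⟩
  have h0T' : 0 < T' := ht₀.1.trans ht₀.2
  obtain ⟨C₁, hC₁⟩ := hu.bdd
  obtain ⟨A, hA0, hA⟩ := G.decay (le_max_right C₁ 0)
  have hAu := hA T' u h0T'.le hT' hu fun t ht x => (hC₁ t ht x).trans (le_max_left _ _)
  obtain ⟨m, hm⟩ : ∃ m, m = T' / 2 := ⟨_, rfl⟩
  obtain ⟨r, hr1, hr2⟩ : ∃ r, |t₀ - m| < r ∧ r < m := exists_between (by
    have h1 : 0 < t₀ := ht₀.1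
    have h2 : t₀ < T' := ht₀.2
    rw [abs_lt]
    constructor <;> linarith)
  have hr0 : 0 < r := (abs_nonneg _).trans_lt hr1
  set σ : ℝ → ℝ := fun s => m + r * Real.sin s with hσ
  have hσI : ∀ s, σ s ∈ Ioo 0 T' := by
    intro s
    have h1 := Real.neg_one_le_sin s
    have h2 := Real.sin_le_one s
    constructor
    · show 0 < m + r * Real.sin s
      nlinarith
    · show m + r * Real.sin s < T'
      nlinarith
  set w : ℕ → ℝ → ℝ := fun k s => co φ ψ ρ lam (u (σ s)) k with hw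
  have hwb : ∀ k s, |w k s| ≤ A := fun k s => hAu _ (Ioo_subset_Icc_self (hσI s)) k
  set h : ℝ → ℝ := fun s => r * Real.cos s with hh
  have hhs : ContDiff ℝ ∞ h := contDiff_const.mul Real.contDiff_cos
  have hhb : ∀ j : ℕ, ∃ H, ∀ s, ‖iteratedFDeriv ℝ j h s‖ ≤ H := by
    intro j
    refine ⟨r, fun s => ?_⟩
    have e : h = r • Real.cos := rfl
    rw [e, iteratedFDeriv_const_smul_apply Real.contDiff_cos.contDiffAt, norm_smul,
      Real.norm_eq_abs, abs_of_pos hr0, norm_iteratedFDeriv_eq_norm_iteratedDeriv,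
      Real.norm_eq_abs]
    exact mul_le_of_le_one_right hr0.le (Real.abs_iteratedDeriv_cos_le_one j s)
  have hd : ∀ k s, HasDerivAt (w k) (h s * (-(lmd φ ψ ρ lam ν k) * w k s
      + Nl (Bt φ ψ ρ lam) PI k (fun j => w j s))) s := by
    intro k s
    have h1 := (G.co_deriv hu hAu k (Ioo_subset_Icc_self (hσI s))).hasDerivAt
      (Icc_mem_nhds (hσI s).1 (hσI s).2)
    have h2 : HasDerivAt σ (r * Real.cos s) s :=
      ((Real.hasDerivAt_sin s).const_mul r).const_add m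
    have h3 := h1.comp s h2
    refine h3.congr_deriv ?_
    rw [mul_comm]
  have hsm := G.time_smooth hhs hhb hwb hd
  have hJ := joint_sum (M := MM lam) (b := bb lam) (φ := φ) G.P.φs G.φbd G.M1
    (bb_summable G.one) (fun n => (bb_pos lam n).le) (w := fun n => w (n + 1)) (fun j => by
      obtain ⟨h1, C, p, hC, h2⟩ := hsm j
      exact ⟨fun n => h1 (n + 1), C, p, hC, fun n s i hi => h2 (n + 1) s i hi⟩)
  have hw0 : ContDiff ℝ ∞ (w 0) := contDiff_infty.mpr fun j => (hsm j).1 0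
  set U : ℝ × V → V := fun z => w 0 z.1 • PP ψ ρ (MM lam) (EE lam) z.2
      + ∑' n, (w (n + 1) z.1 * bb lam n) • sc (MM lam n) φ z.2 with hUdef
  have hU : ContDiff ℝ ∞ U :=
    ((hw0.comp contDiff_fst).smul ((PP_smooth G.P G.S).comp contDiff_snd)).add hJ
  have hid : ∀ s x, u (σ s) x = U (s, x) := fun s x =>
    G.ident (hu.mem _ (Ioo_subset_Icc_self (hσI s)))
      (hAu _ (Ioo_subset_Icc_self (hσI s))) x
  set τ : ℝ → ℝ := fun t => Real.arcsin ((t - m) / r) with hτ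
  have hlt : |(t₀ - m) / r| < 1 := by rwa [abs_div, abs_of_pos hr0, div_lt_one hr0]
  have hne1 : (t₀ - m) / r ≠ -1 := fun hc => by rw [hc] at hlt; norm_num at hlt
  have hne2 : (t₀ - m) / r ≠ 1 := fun hc => by rw [hc] at hlt; norm_num at hlt
  have hτs : ContDiffAt ℝ ∞ τ t₀ := by
    have ha : ContDiffAt ℝ ∞ Real.arcsin ((t₀ - m) / r) := Real.contDiffAt_arcsin hne1 hne2
    have hb : ContDiffAt ℝ ∞ (fun t : ℝ => (t - m) / r) t₀ :=
      (contDiffAt_id.sub contDiffAt_const).div_const r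
    exact ContDiffAt.comp (g := Real.arcsin) (f := fun t : ℝ => (t - m) / r) t₀ ha hb
  have hev : ∀ᶠ t in 𝓝 t₀, σ (τ t) = t := by
    have h1 : ∀ᶠ t in 𝓝 t₀, |t - m| < r := by
      have hc : Continuous fun t : ℝ => |t - m| := by fun_prop
      exact hc.continuousAt.eventually (gt_mem_nhds hr1)
    filter_upwards [h1] with t ht
    rw [abs_lt] at ht
    show m + r * Real.sin (Real.arcsin ((t - m) / r)) = t
    rw [Real.sin_arcsin]
    · field_simp
      ring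
    · rw [le_div_iff₀ hr0]; linarith [ht.1]
    · rw [div_le_iff₀ hr0]; linarith [ht.2]
  have hcomp : ContDiffAt ℝ ∞ (fun z : ℝ × V => U (τ z.1, z.2)) (t₀, x₀) := by
    have h1 : ContDiffAt ℝ ∞ (fun z : ℝ × V => τ z.1) (t₀, x₀) :=
      ContDiffAt.comp (g := τ) (f := fun z : ℝ × V => z.1) (t₀, x₀) hτs contDiffAt_fst
    exact ContDiffAt.comp (g := U) (f := fun z : ℝ × V => (τ z.1, z.2)) (t₀, x₀)
      hU.contDiffAt (h1.prodMk contDiffAt_snd)
  refine (hcomp.congr_of_eventuallyEq ?_).contDiffWithinAt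
  have h5 : ∀ᶠ z : ℝ × V in 𝓝 (t₀, x₀), σ (τ z.1) = z.1 :=
    (continuous_fst.tendsto (t₀, x₀)).eventually hev
  filter_upwards [h5] with z hz
  show u z.1 z.2 = U (τ z.1, z.2)
  rw [← hid, hz]

/-- joint continuity up to the initial time -/
theorem Good.jointC (G : Good φ ρ ψ x₁ ν T lam R c0 vd ks Ns) {T' : ℝ} (h0 : 0 ≤ T')
    (hT' : T' ≤ T) {u : ℝ → V → V}
    (hu : GSol ν (Fam φ ψ ρ (MM lam) (EE lam)) vd T' u) :
    ContinuousOn (fun z : ℝ × V => u z.1 z.2) (Icc 0 T' ×ˢ univ) := by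
  obtain ⟨C₁, hC₁⟩ := hu.bdd
  obtain ⟨A, hA0, hA⟩ := G.decay (le_max_right C₁ 0)
  have hAu := hA T' u h0 hT' hu fun t ht x => (hC₁ t ht x).trans (le_max_left _ _)
  obtain ⟨D, hD⟩ := G.φbd 0
  have hcc : ∀ k, ContinuousOn (fun t => co φ ψ ρ lam (u t) k) (Icc 0 T') := fun k t ht =>
    (G.co_deriv hu hAu k ht).continuousWithinAt
  have hcz : ∀ k, ContinuousOn (fun z : ℝ × V => co φ ψ ρ lam (u z.1) k) (Icc 0 T' ×ˢ univ) :=
    fun k => (hcc k).comp continuousOn_fst fun z hz => hz.1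
  have hPc : Continuous (PP ψ ρ (MM lam) (EE lam)) := (PP_smooth G.P G.S).continuous
  have h1 : ContinuousOn (fun z : ℝ × V => co φ ψ ρ lam (u z.1) 0 • PP ψ ρ (MM lam) (EE lam) z.2
      + ∑' n, (co φ ψ ρ lam (u z.1) (n + 1) * bb lam n) • sc (MM lam n) φ z.2)
      (Icc 0 T' ×ˢ univ) := by
    refine ((hcz 0).smul (hPc.comp continuous_snd).continuousOn).add ?_
    refine continuousOn_tsum (u := fun n => (A * D) * (MM lam n ^ 3 * bb lam n)) (fun n => ?_)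
      ((bb_summable G.one 3).mul_left _) (fun n z hz => ?_)
    · have h2 : Continuous (sc (MM lam n) φ) := (sc_cd G.P.φs).continuous
      exact ((hcz (n + 1)).mul continuousOn_const).smul (h2.comp continuous_snd).continuousOn
    · have h2 := sc_iter (MM_pos lam n).le G.P.φs hD z.2
      rw [norm_iteratedFDeriv_zero] at h2
      have h3 := hAu z.1 hz.1 (n + 1)
      have h4 := bb_pos lam n
      rw [norm_smul, Real.norm_eq_abs, abs_mul, abs_of_pos h4]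
      calc |co φ ψ ρ lam (u z.1) (n + 1)| * bb lam n * ‖sc (MM lam n) φ z.2‖
          ≤ A * bb lam n * (MM lam n ^ (3 + 2 * 0) * D) :=
            mul_le_mul (mul_le_mul_of_nonneg_right h3 h4.le) h2 (norm_nonneg _) (by positivity)
        _ = _ := by ring
  refine h1.congr fun z hz => ?_
  exact G.ident (hu.mem _ hz.1) (hAu _ hz.1) z.2

end

theorem joint_union {Ts : ℝ} {u : ℝ → V → V}
    (h : ∀ T', 0 ≤ T' → T' < Ts →
      ContDiffOn ℝ ∞ (fun z : ℝ × V => u z.1 z.2) (Ioo 0 T' ×ˢ univ)) :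
    ContDiffOn ℝ ∞ (fun z : ℝ × V => u z.1 z.2) (Ioo 0 Ts ×ˢ univ) := by
  rintro ⟨t, x⟩ ⟨ht, -⟩
  obtain ⟨T', h1, h2⟩ := exists_between ht.2
  have hm : ((t, x) : ℝ × V) ∈ Ioo 0 T' ×ˢ (univ : Set V) := ⟨⟨ht.1, h1⟩, mem_univ _⟩
  have h3 := h T' (lt_trans ht.1 h1).le h2 (t, x) hm
  exact (h3.contDiffAt ((isOpen_Ioo.prod isOpen_univ).mem_nhds hm)).contDiffWithinAt

theorem jointC_union {Ts : ℝ} {u : ℝ → V → V}
    (h : ∀ T', 0 ≤ T' → T' < Ts →
      ContinuousOn (fun z : ℝ × V => u z.1 z.2) (Icc 0 T' ×ˢ univ)) :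
    ContinuousOn (fun z : ℝ × V => u z.1 z.2) (Ico 0 Ts ×ˢ univ) := by
  rintro ⟨t, x⟩ ⟨ht, -⟩
  obtain ⟨T', h1, h2⟩ := exists_between ht.2
  have hm : ((t, x) : ℝ × V) ∈ Icc 0 T' ×ˢ (univ : Set V) := ⟨⟨ht.1, h1.le⟩, mem_univ _⟩
  have h3 := h T' (ht.1.trans h1.le) h2 (t, x) hm
  refine h3.mono_of_mem_nhdsWithin ?_
  rw [mem_nhdsWithin]
  refine ⟨Iio T' ×ˢ univ, isOpen_Iio.prod isOpen_univ, ⟨h1, mem_univ _⟩, ?_⟩
  rintro ⟨s, y⟩ ⟨hs1, hs2⟩
  exact ⟨⟨hs2.1.1, le_of_lt hs1.1⟩, mem_univ _⟩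

theorem Tr_joint {l : ℝ} (hl : 0 < l) {p : V} {Ts : ℝ} {u : ℝ → V → V}
    (h : ContDiffOn ℝ ∞ (fun z : ℝ × V => u z.1 z.2) (Ioo 0 Ts ×ˢ univ)) :
    ContDiffOn ℝ ∞ (fun z : ℝ × V => Tr l p (u (l ^ 2 * z.1)) z.2)
      (Ioo 0 (Ts / l ^ 2) ×ˢ univ) := by
  have hg : ContDiff ℝ ∞ (fun z : ℝ × V => ((l ^ 2 * z.1, l • (z.2 - p)) : ℝ × V)) := by
    fun_prop
  have hm : MapsTo (fun z : ℝ × V => ((l ^ 2 * z.1, l • (z.2 - p)) : ℝ × V))
      (Ioo 0 (Ts / l ^ 2) ×ˢ univ) (Ioo 0 Ts ×ˢ univ) := by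
    rintro ⟨t, x⟩ ⟨ht, -⟩
    have hl2 : 0 < l ^ 2 := by positivity
    refine ⟨⟨mul_pos hl2 ht.1, ?_⟩, mem_univ _⟩
    have h2 := ht.2
    simp only at h2
    rw [lt_div_iff₀ hl2] at h2
    show l ^ 2 * t < Ts
    linarith
  exact (h.comp hg.contDiffOn hm).const_smul l

theorem Tr_jointC {l : ℝ} (hl : 0 < l) {p : V} {Ts : ℝ} {u : ℝ → V → V}
    (h : ContinuousOn (fun z : ℝ × V => u z.1 z.2) (Ico 0 Ts ×ˢ univ)) :
    ContinuousOn (fun z : ℝ × V => Tr l p (u (l ^ 2 * z.1)) z.2)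
      (Ico 0 (Ts / l ^ 2) ×ˢ univ) := by
  have hg : Continuous (fun z : ℝ × V => ((l ^ 2 * z.1, l • (z.2 - p)) : ℝ × V)) := by
    fun_prop
  have hm : MapsTo (fun z : ℝ × V => ((l ^ 2 * z.1, l • (z.2 - p)) : ℝ × V))
      (Ico 0 (Ts / l ^ 2) ×ˢ univ) (Ico 0 Ts ×ˢ univ) := by
    rintro ⟨t, x⟩ ⟨ht, -⟩
    have hl2 : 0 < l ^ 2 := by positivity
    refine ⟨⟨mul_nonneg hl2.le ht.1, ?_⟩, mem_univ _⟩
    have h2 := ht.2
    simp only at h2
    rw [lt_div_iff₀ hl2] at h2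
    show l ^ 2 * t < Ts
    linarith
  exact (h.comp hg.continuousOn hm).const_smul l

end Pool.Agent.H402W
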