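import Mathlib
import Pool.Agent.H402W.Lq

/-! Solutions which are bounded in the critical space `L^3` have bounded velocity. -/

open Set MeasureTheory Filter Topology Finset
open scoped RealInnerProductSpace ContDiff

namespace Pool.Agent.H402W

theorem barrier_aux {y b f : ℝ → ℝ} {T m F : ℝ} (hm : 0 < m) (hF : 0 ≤ F)
    (hd : ∀ t ∈ Set.Icc 0 T, HasDerivWithinAt y (b t * y t + f t) (Set.Icc 0 T) t)
    (hb : ∀ t ∈ Set.Icc 0 T, b t ≤ -m) (hf : ∀ t ∈ Set.Icc 0 T, f t ≤ F) (h0 : y 0 = 0)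
    {t : ℝ} (ht : t ∈ Set.Icc 0 T) : y t ≤ F / m := by
  refine le_of_forall_pos_le_add fun ε hε => ?_
  have key := image_le_of_deriv_right_lt_deriv_boundary' (f := y)
    (f' := fun t => b t * y t + f t) (a := 0) (b := T)
    (fun s hs => (hd s hs).continuousWithinAt)
    (fun s hs => (hd s ⟨hs.1, hs.2.le⟩).mono_of_mem_nhdsWithin (Icc_mem_nhdsGE_of_mem hs))
    (B := fun _ => F / m + ε) (B' := fun _ => 0) (by rw [h0]; positivity)
    continuousOn_const (fun s _ => hasDerivWithinAt_const _ _ _) (fun s hs hy => ?_)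
  · exact key ht
  · have hs' : s ∈ Set.Icc 0 T := ⟨hs.1, hs.2.le⟩
    have h1 := hb s hs'
    have h2 := hf s hs'
    rw [hy]
    have h3 : 0 ≤ F / m + ε := by positivity
    have h4 := mul_le_mul_of_nonneg_right h1 h3
    have h5 : -m * (F / m + ε) = -F - m * ε := by
      field_simp
      ring
    have h6 : 0 < m * ε := by positivity
    linarith

theorem barrier {y b f : ℝ → ℝ} {T m F : ℝ} (hm : 0 < m) (hF : 0 ≤ F)
    (hd : ∀ t ∈ Set.Icc 0 T, HasDerivWithinAt y (b t * y t + f t) (Set.Icc 0 T) t)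
    (hb : ∀ t ∈ Set.Icc 0 T, b t ≤ -m) (hf : ∀ t ∈ Set.Icc 0 T, |f t| ≤ F) (h0 : y 0 = 0)
    {t : ℝ} (ht : t ∈ Set.Icc 0 T) : |y t| ≤ F / m := by
  rw [abs_le]
  constructor
  · have h1 := barrier_aux (y := fun t => -y t) (b := b) (f := fun t => -f t) hm hF
      (fun t ht => by
        refine (hd t ht).neg.congr_deriv ?_
        ring) hb (fun t ht => by have := (abs_le.mp (hf t ht)).1; linarith)
      (by simp [h0]) ht
    linarith
  · exact barrier_aux hm hF hd hb (fun t ht => (abs_le.mp (hf t ht)).2) h0 ht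

theorem ip_holder {q : ℝ} (hq : 1 < q) {v w : V → V} (hv : Continuous v)
    (hvc : HasCompactSupport v) (hw : TF w) :
    |ip v w| ≤ (∫ x, ‖v x‖ ^ q) ^ (1 / q)
      * (∫ x, ‖w x‖ ^ q.conjExponent) ^ (1 / q.conjExponent) := by
  have hcj : q.HolderConjugate q.conjExponent := Real.HolderConjugate.conjExponent hq
  refine le_trans ?_ (integral_mul_le_Lp_mul_Lq_of_nonneg hcj (f := fun x => ‖v x‖)
    (g := fun x => ‖w x‖) (ae_of_all _ fun x => norm_nonneg _)
    (ae_of_all _ fun x => norm_nonneg _)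
    (hv.norm.memLp_of_hasCompactSupport hvc.norm)
    (hw.cont.norm.memLp_of_hasCompactSupport hw.cs.norm))
  unfold ip
  rw [← Real.norm_eq_abs]
  refine (norm_integral_le_integral_norm _).trans ?_
  refine integral_mono (ip_int hv hw).norm ?_ fun x => ?_
  · obtain ⟨r, hr⟩ := hw.out
    have := hw.cont
    exact integrable_of_zero (by fun_prop) (R := r) fun x hx => by simp [(hr x hx).1]
  · rw [Real.norm_eq_abs]
    exact abs_real_inner_le_norm _ _

section

variable {φ ρ ψ : V → V} {x₁ : V} {ν T lam R c0 : ℝ} {vd : V → V} {ks Ns : ℕ}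

theorem L_ge_of (S : Scl (MM lam) (EE lam)) (n : ℕ) : 20 < LL lam n := by
  have h1 := S.M_succ n
  have h2 : ∀ n, MM lam n ^ 2 = Real.exp (LL lam n) := by
    intro n; rw [MM_pow]; congr 1; push_cast; ring
  rw [h2, h2, LL_succ] at h1
  have h3 : Real.exp (6 / 5 * LL lam n) = Real.exp (LL lam n / 5) * Real.exp (LL lam n) := by
    rw [← Real.exp_add]; congr 1; ring
  rw [h3] at h1
  have h4 : 64 ≤ Real.exp (LL lam n / 5) := le_of_mul_le_mul_right h1 (Real.exp_pos _)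
  by_contra hcon
  push Not at hcon
  have h5 : Real.exp (LL lam n / 5) ≤ Real.exp 4 := Real.exp_le_exp.mpr (by linarith)
  have h6 : Real.exp 4 < 64 := by
    have h7 : Real.exp 4 = Real.exp 1 ^ 4 := by rw [← Real.exp_nat_mul]; norm_num
    rw [h7]
    have h8 := Real.exp_one_lt_d9
    calc Real.exp 1 ^ 4 < 2.7182818286 ^ 4 := pow_lt_pow_left₀ h8 (Real.exp_pos _).le (by norm_num)
      _ < 64 := by norm_num
  linarith

theorem geo_tail (S : Scl (MM lam) (EE lam)) {s : ℝ} (hs : 1 / 4 ≤ s) {n K : ℕ} (h : n ≤ K) :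
    ∑ l ∈ Finset.Ico n K, Real.exp (-(s * LL lam l)) ≤ 2 * Real.exp (-(s * LL lam n)) := by
  have hstep : ∀ m, 2 * Real.exp (-(s * LL lam (m + 1))) ≤ Real.exp (-(s * LL lam m)) := by
    intro m
    have h1 := L_ge_of S m
    rw [LL_succ]
    have h2 : Real.exp (-(s * (6 / 5 * LL lam m)))
        = Real.exp (-(s / 5 * LL lam m)) * Real.exp (-(s * LL lam m)) := by
      rw [← Real.exp_add]; congr 1; ring
    have h3 : Real.exp (-(s / 5 * LL lam m)) ≤ 1 / 2 := by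
      have h4 : 1 ≤ s / 5 * LL lam m := by nlinarith
      have h5 : Real.exp (-(s / 5 * LL lam m)) ≤ Real.exp (-1) :=
        Real.exp_le_exp.mpr (by linarith)
      have h6 : Real.exp (-1) ≤ 1 / 2 := by
        rw [Real.exp_neg, inv_le_comm₀ (Real.exp_pos _) (by norm_num)]
        have := Real.add_one_le_exp (1 : ℝ)
        norm_num at this ⊢
        linarith
      linarith
    rw [h2]
    have := mul_le_mul_of_nonneg_right h3 (Real.exp_pos (-(s * LL lam m))).le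
    linarith
  have key : ∀ k, ∑ l ∈ Finset.Ico n (n + k), Real.exp (-(s * LL lam l))
      ≤ 2 * Real.exp (-(s * LL lam n)) - 2 * Real.exp (-(s * LL lam (n + k))) := by
    intro k
    induction k with
    | zero => simp
    | succ k ih =>
      rw [← add_assoc, Finset.sum_Ico_succ_top (by omega)]
      have := hstep (n + k)
      linarith
  obtain ⟨k, rfl⟩ := Nat.exists_eq_add_of_le h
  have := key k
  have := Real.exp_pos (-(s * LL lam (n + k)))
  linarith

theorem EE_bound (S : Scl (MM lam) (EE lam)) : ∃ C, 0 ≤ C ∧ ∀ n,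
    EE lam n ≤ C * Real.exp (-(8 * LL lam n)) := by
  have h1 := S.summ 8
  have h2 := h1.tendsto_atTop_zero
  obtain ⟨B, hB⟩ := h2.bddAbove_range
  have hB' : ∀ n, Real.sqrt (EE lam n) * MM lam n ^ 8 ≤ B := fun n => hB ⟨n, rfl⟩
  have hM8 : ∀ n, MM lam n ^ 8 = Real.exp (4 * LL lam n) := by
    intro n; rw [MM_pow]; congr 1; push_cast; ring
  have hB0 : 0 ≤ B := by
    have := hB' 0
    have h3 := Real.sqrt_nonneg (EE lam 0)
    have h4 := MM_pos lam 0
    exact le_trans (by positivity) this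
  refine ⟨B ^ 2, by positivity, fun n => ?_⟩
  have h3 := hB' n
  rw [hM8] at h3
  have hE := EE_pos lam n
  have h4 : Real.sqrt (EE lam n) ≤ B * Real.exp (-(4 * LL lam n)) := by
    rw [Real.exp_neg, ← div_eq_mul_inv, le_div_iff₀ (Real.exp_pos _)]
    exact h3
  have h5 : EE lam n = Real.sqrt (EE lam n) ^ 2 := (Real.sq_sqrt hE.le).symm
  rw [h5]
  calc Real.sqrt (EE lam n) ^ 2 ≤ (B * Real.exp (-(4 * LL lam n))) ^ 2 :=
        pow_le_pow_left₀ (Real.sqrt_nonneg _) h4 2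
    _ = B ^ 2 * Real.exp (-(8 * LL lam n)) := by
        rw [mul_pow, ← Real.exp_nat_mul]; congr 2; push_cast; ring

/-- the tail functional is the sum over the smaller scales -/
theorem tt_tail (P : Prof φ ρ ψ x₁) (S : Scl (MM lam) (EE lam)) {v : V → V}
    (hv : InX (Fam φ ψ ρ (MM lam) (EE lam)) v) {s K Cc Cε : ℝ} (hs : 1 ≤ s) (hs8 : s ≤ 8)
    (hCε : 0 ≤ Cε) (hE : ∀ n, EE lam n ≤ Cε * Real.exp (-(8 * LL lam n)))
    (ha : ∀ l, |af φ (MM lam) v l| ≤ K * Real.exp (-(s / 2 * LL lam l)))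
    (hc : |cf ψ ρ (MM lam) (EE lam) v| ≤ Cc) (n : ℕ) :
    tt φ ψ ρ (MM lam) (EE lam) v n
      ≤ 2 * ((-hf φ φ) * K ^ 2 + Cc ^ 2 * Cε * (-hf ρ ρ)) * Real.exp (-(s * LL lam n)) := by
  have hq : 0 < -hf φ φ := by linarith [P.q_pos]
  have hβ : 0 < -hf ρ ρ := by linarith [P.β_pos]
  have hCc : 0 ≤ Cc := (abs_nonneg _).trans hc
  set Z := (-hf φ φ) * K ^ 2 + Cc ^ 2 * Cε * (-hf ρ ρ) with hZ
  have hZ0 : 0 ≤ Z := by positivity
  have hterm : ∀ l, (-hf φ φ) * af φ (MM lam) v l ^ 2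
      + cf ψ ρ (MM lam) (EE lam) v ^ 2 * EE lam l * (-hf ρ ρ) ≤ Z * Real.exp (-(s * LL lam l)) := by
    intro l
    have h1 : af φ (MM lam) v l ^ 2 ≤ K ^ 2 * Real.exp (-(s * LL lam l)) := by
      rw [← sq_abs]
      calc |af φ (MM lam) v l| ^ 2 ≤ (K * Real.exp (-(s / 2 * LL lam l))) ^ 2 :=
            pow_le_pow_left₀ (abs_nonneg _) (ha l) 2
        _ = _ := by rw [mul_pow, ← Real.exp_nat_mul]; congr 2; push_cast; ring
    have h2 : cf ψ ρ (MM lam) (EE lam) v ^ 2 ≤ Cc ^ 2 := by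
      rw [← sq_abs]; exact pow_le_pow_left₀ (abs_nonneg _) hc 2
    have h3 : EE lam l ≤ Cε * Real.exp (-(s * LL lam l)) := by
      refine (hE l).trans (mul_le_mul_of_nonneg_left (Real.exp_le_exp.mpr ?_) hCε)
      have := L_ge_of S l
      nlinarith
    have h4 : cf ψ ρ (MM lam) (EE lam) v ^ 2 * EE lam l
        ≤ Cc ^ 2 * (Cε * Real.exp (-(s * LL lam l))) :=
      mul_le_mul h2 h3 (EE_pos lam l).le (by positivity)
    have h5 := mul_le_mul_of_nonneg_left h1 hq.le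
    have h6 := mul_le_mul_of_nonneg_right h4 hβ.le
    rw [hZ]
    linarith
  obtain ⟨C, hC0, hC⟩ := hv.1.bound
  have hrec : ∀ k, tt φ ψ ρ (MM lam) (EE lam) v n
      = (∑ l ∈ Finset.Ico n (n + k), ((-hf φ φ) * af φ (MM lam) v l ^ 2
      + cf ψ ρ (MM lam) (EE lam) v ^ 2 * EE lam l * (-hf ρ ρ)))
      + tt φ ψ ρ (MM lam) (EE lam) v (n + k) := by
    intro k
    induction k with
    | zero => simp
    | succ k ih =>
      rw [ih, ← add_assoc, Finset.sum_Ico_succ_top (by omega), tt_rec P S hv (n + k)]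
      ring
  refine le_of_vq S (K := ‖HH‖ * (C + C * ‖HH‖) ^ 2) (n₀ := n) fun m hm => ?_
  obtain ⟨k, rfl⟩ := Nat.exists_eq_add_of_le hm
  rw [hrec k]
  have h1 := (abs_le.mp (tt_vel P S hv (fun x => (hC x).1) (n + k))).2
  have h2 := mul_le_mul_of_nonneg_left (vr_le_vq S (n + k))
    (by positivity : 0 ≤ ‖HH‖ * (C + C * ‖HH‖) ^ 2)
  have h3 : ∑ l ∈ Finset.Ico n (n + k), ((-hf φ φ) * af φ (MM lam) v l ^ 2
      + cf ψ ρ (MM lam) (EE lam) v ^ 2 * EE lam l * (-hf ρ ρ))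
      ≤ 2 * Z * Real.exp (-(s * LL lam n)) := by
    refine (sum_le_sum fun l _ => hterm l).trans ?_
    rw [← mul_sum]
    have h4 := mul_le_mul_of_nonneg_left (geo_tail S (by linarith : (1:ℝ) / 4 ≤ s)
      (Nat.le_add_right n k)) hZ0
    linarith
  linarith

/-- the strain under polynomial decay of the coefficients -/
theorem W_decay (hlam : 1 ≤ lam) {γ K s : ℝ} (hγ : 0 < γ) (hK : 0 ≤ K) (hs5 : s ≤ 5)
    {v : ℝ → V → V} {t : ℝ}
    (ha : ∀ m, |af φ (MM lam) (v t) m| ≤ K * Real.exp (-(s / 2 * LL lam m))) (n : ℕ) :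
    W (gg γ lam) (fun n t => af φ (MM lam) (v t) n) n t
      ≤ γ * K * n * Real.exp (5 / 12 * (5 - s) * LL lam n) := by
  unfold W
  have h1 : ∀ m ∈ range n, gg γ lam m * af φ (MM lam) (v t) m
      ≤ γ * K * Real.exp (5 / 12 * (5 - s) * LL lam n) := by
    intro m hm
    have hmn := mem_range.mp hm
    have h2 : LL lam m ≤ 5 / 6 * LL lam n := by
      have h3 := LL_mono (by linarith : (0 : ℝ) ≤ lam) (Nat.succ_le_of_lt hmn)
      have h4 := LL_succ lam m
      have h5 : LL lam (m + 1) ≤ LL lam n := h3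
      linarith
    have h3 := (le_abs_self _).trans (ha m)
    unfold gg
    calc γ * Real.exp (5 / 2 * LL lam m) * af φ (MM lam) (v t) m
        ≤ γ * Real.exp (5 / 2 * LL lam m) * (K * Real.exp (-(s / 2 * LL lam m))) :=
          mul_le_mul_of_nonneg_left h3 (by positivity)
      _ = γ * K * Real.exp (5 / 2 * LL lam m + -(s / 2 * LL lam m)) := by
          rw [Real.exp_add]; ring
      _ ≤ γ * K * Real.exp (5 / 12 * (5 - s) * LL lam n) := by
          refine mul_le_mul_of_nonneg_left (Real.exp_le_exp.mpr ?_) (by positivity)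
          have h5 : 5 / 2 * LL lam m + -(s / 2 * LL lam m) = (5 - s) / 2 * LL lam m := by ring
          have h6 : 5 / 12 * (5 - s) * LL lam n = (5 - s) / 2 * (5 / 6 * LL lam n) := by ring
          rw [h5, h6]
          exact mul_le_mul_of_nonneg_left h2 (by linarith)
  refine (sum_le_sum h1).trans ?_
  rw [sum_const, card_range, nsmul_eq_mul]
  linarith

/-- eventually the growth is dominated by the viscosity -/
theorem dom_ev (hlam : 1 ≤ lam) {A m₀ θ : ℝ} (hA : 0 ≤ A) (hm₀ : 0 < m₀) (hθ : θ < 2) :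
    ∃ n₁ : ℕ, ∀ n ≥ n₁, A * n * Real.exp (θ * LL lam n) ≤ m₀ * Real.exp (2 * LL lam n) := by
  obtain ⟨η, hη⟩ : ∃ η, η = 2 - θ := ⟨_, rfl⟩
  have hη0 : 0 < η := by linarith
  have hev : ∀ᶠ n in atTop, 20 * A / (m₀ * η ^ 2) ≤ LL lam n :=
    (LL_tendsto hlam).eventually_ge_atTop _
  obtain ⟨n₀, hn₀⟩ := eventually_atTop.mp hev
  refine ⟨n₀, fun n hn => ?_⟩
  have h2 := hn₀ n hn
  have hL0 : 0 < LL lam n := by linarith [LL_ge (by linarith : (0 : ℝ) ≤ lam) n]
  rw [div_le_iff₀ (by positivity)] at h2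
  have hnL : (n : ℝ) ≤ 5 * LL lam n := by
    have h3 := one_add_mul_le_pow (a := (1 / 5 : ℝ)) (by norm_num) n
    have h4 := pow_le_LL hlam n
    have h5 : (1 + 1 / 5 : ℝ) = 6 / 5 := by norm_num
    rw [h5] at h3
    linarith
  have h5 : (η * LL lam n / 2) ^ 2 ≤ Real.exp (η * LL lam n) := by
    have h6 := Real.add_one_le_exp (η * LL lam n / 2)
    have h7 : Real.exp (η * LL lam n) = Real.exp (η * LL lam n / 2) ^ 2 := by
      rw [← Real.exp_nat_mul]; congr 1; push_cast; ring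
    rw [h7]
    refine pow_le_pow_left₀ (by positivity) (by linarith) 2
  have h6 : A * n ≤ m₀ * Real.exp (η * LL lam n) := by
    calc A * n ≤ A * (5 * LL lam n) := mul_le_mul_of_nonneg_left hnL hA
      _ = (20 * A) * LL lam n / 4 := by ring
      _ ≤ (LL lam n * (m₀ * η ^ 2)) * LL lam n / 4 := by
          have := mul_le_mul_of_nonneg_right h2 hL0.le
          linarith
      _ = m₀ * (η * LL lam n / 2) ^ 2 := by ring
      _ ≤ _ := mul_le_mul_of_nonneg_left h5 hm₀.le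
  have h8 : Real.exp (2 * LL lam n) = Real.exp (η * LL lam n) * Real.exp (θ * LL lam n) := by
    rw [← Real.exp_add]; congr 1; rw [hη]; ring
  rw [h8, ← mul_assoc m₀]
  exact mul_le_mul_of_nonneg_right h6 (Real.exp_pos _).le

/-- one step of the gain of decay -/
theorem Good.boot (G : Good φ ρ ψ x₁ ν T lam R c0 vd ks Ns) {T' : ℝ} {u : ℝ → V → V}
    (hu : CSol ν (Fam φ ψ ρ (MM lam) (EE lam)) vd T' u) {Cc : ℝ}
    (hc : ∀ t ∈ Set.Icc 0 T', |cf ψ ρ (MM lam) (EE lam) (u t)| ≤ Cc) {s K : ℝ} (hs : 1 ≤ s)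
    (hs5 : s ≤ 5) (hK : 0 ≤ K)
    (ha : ∀ t ∈ Set.Icc 0 T', ∀ n,
      |af φ (MM lam) (u t) n| ≤ K * Real.exp (-(s / 2 * LL lam n))) :
    ∃ K', 0 ≤ K' ∧ ∀ t ∈ Set.Icc 0 T', ∀ n,
      |af φ (MM lam) (u t) n| ≤ K' * Real.exp (-((12 / 5 * s - 1) / 2 * LL lam n)) := by
  have P := G.P
  have S := G.S
  have hF := φ_pos P
  have hq : 0 < -hf φ φ := by linarith [P.q_pos]
  have hβ : 0 < -hf ρ ρ := by linarith [P.β_pos]
  have hA := dir_φ_pos P
  have hν := G.ν_pos
  have hlam := G.one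
  obtain ⟨Cε, hCε, hE⟩ := EE_bound S
  obtain ⟨γ, hγ⟩ : ∃ γ, γ = -hf φ φ / ip φ φ := ⟨_, rfl⟩
  have hγ0 : 0 < γ := by rw [hγ]; positivity
  obtain ⟨m₀, hm₀⟩ : ∃ m₀, m₀ = ν * dir φ φ / ip φ φ := ⟨_, rfl⟩
  have hm₀0 : 0 < m₀ := by rw [hm₀]; positivity
  obtain ⟨n₁, hn₁⟩ := dom_ev (A := 2 * (γ * K)) (m₀ := m₀) (θ := 5 / 12 * (5 - s)) hlam
    (by positivity) hm₀0 (by linarith)
  set N₁ := max n₁ (ks + 2) with hN₁
  obtain ⟨Z, hZ⟩ : ∃ Z, Z = 2 * ((-hf φ φ) * K ^ 2 + Cc ^ 2 * Cε * (-hf ρ ρ)) := ⟨_, rfl⟩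
  have hZ0 : 0 ≤ Z := by rw [hZ]; positivity
  obtain ⟨Y, hY⟩ : ∃ Y, Y = (Cc ^ 2 * Cε * (-hf ρ ρ) + Z) / ip φ φ := ⟨_, rfl⟩
  have hY0 : 0 ≤ Y := by rw [hY]; positivity
  have hM5 : ∀ n, MM lam n ^ 5 = Real.exp (5 / 2 * LL lam n) := by
    intro n; rw [MM_pow]; congr 1; push_cast; ring
  have hM4 : ∀ n, MM lam n ^ 4 = Real.exp (2 * LL lam n) := by
    intro n; rw [MM_pow]; congr 1; push_cast; ring
  refine ⟨K * Real.exp ((7 / 5 * s - 1) / 2 * LL lam N₁) + 2 * Y / m₀, by positivity,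
    fun t ht n => ?_⟩
  rw [add_mul]
  rcases Nat.lt_or_ge n N₁ with hn | hn
  · have h1 := ha t ht n
    have h2 : K * Real.exp (-(s / 2 * LL lam n))
        ≤ K * Real.exp ((7 / 5 * s - 1) / 2 * LL lam N₁)
          * Real.exp (-((12 / 5 * s - 1) / 2 * LL lam n)) := by
      rw [mul_assoc, ← Real.exp_add]
      refine mul_le_mul_of_nonneg_left (Real.exp_le_exp.mpr ?_) hK
      have h3 := LL_mono (by linarith : (0 : ℝ) ≤ lam) hn.le
      have h4 := mul_le_mul_of_nonneg_left h3 (by linarith : 0 ≤ (7 / 5 * s - 1) / 2)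
      nlinarith
    have h3 : 0 ≤ 2 * Y / m₀ * Real.exp (-((12 / 5 * s - 1) / 2 * LL lam n)) := by positivity
    linarith
  · have hn1 : n₁ ≤ n := (le_max_left _ _).trans hn
    have hn2 : ks + 2 ≤ n := (le_max_right _ _).trans hn
    have hLn := L_ge_of S n
    have key := barrier (y := fun t => af φ (MM lam) (u t) n)
      (b := fun t => W (gg γ lam) (fun n t => af φ (MM lam) (u t) n) n t - muu m₀ lam n)
      (f := fun t => MM lam n ^ 5 * (cf ψ ρ (MM lam) (EE lam) (u t) ^ 2 * EE lam n * (-hf ρ ρ))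
        / ip φ φ - MM lam n ^ 5 * tt φ ψ ρ (MM lam) (EE lam) (u t) (n + 1) / ip φ φ)
      (T := T') (m := m₀ / 2 * Real.exp (2 * LL lam n))
      (F := Y * Real.exp ((5 / 2 - 6 / 5 * s) * LL lam n)) (by positivity) (by positivity)
      (fun t ht => ?_) (fun t ht => ?_) (fun t ht => ?_) ?_ ht
    · refine key.trans ?_
      have h1 : Y * Real.exp ((5 / 2 - 6 / 5 * s) * LL lam n)
          / (m₀ / 2 * Real.exp (2 * LL lam n))
          = 2 * Y / m₀ * Real.exp (-((12 / 5 * s - 1) / 2 * LL lam n)) := by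
        have h2 : Real.exp ((5 / 2 - 6 / 5 * s) * LL lam n)
            = Real.exp (-((12 / 5 * s - 1) / 2 * LL lam n)) * Real.exp (2 * LL lam n) := by
          rw [← Real.exp_add]; congr 1; ring
        rw [h2]
        have := (Real.exp_pos (2 * LL lam n)).ne'
        field_simp
      rw [h1]
      have h3 : 0 ≤ K * Real.exp ((7 / 5 * s - 1) / 2 * LL lam N₁)
          * Real.exp (-((12 / 5 * s - 1) / 2 * LL lam n)) := by positivity
      linarith
    · have h1 := (hu.eq (n + 1) t ht).div_const (ip φ φ)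
      refine HasDerivWithinAt.congr_deriv h1 ?_
      show (tri (u t) (sc (MM lam n) φ) (u t) - ν * dir (u t) (sc (MM lam n) φ)) / ip φ φ = _
      rw [W_eq, flux_eq P S (hu.mem t ht), dir_eq P S (hu.mem t ht), hγ, hm₀]
      unfold muu
      rw [← hM4]
      generalize -hf φ φ = q
      generalize -hf ρ ρ = β
      field_simp
      ring
    · have h1 := W_decay hlam hγ0 hK hs5 (v := u) (t := t) (fun m => ha t ht m) n
      have h2 := hn₁ n hn1
      unfold muu
      have h3 : 2 * (γ * K) * n * Real.exp (5 / 12 * (5 - s) * LL lam n)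
          = 2 * (γ * K * n * Real.exp (5 / 12 * (5 - s) * LL lam n)) := by ring
      rw [h3] at h2
      linarith
    · have htt0 : 0 ≤ tt φ ψ ρ (MM lam) (EE lam) (u t) (n + 1) := tt_nonneg P S (hu.mem t ht) _
      have htt := tt_tail P S (hu.mem t ht) hs (by linarith) hCε hE (fun l => ha t ht l)
        (hc t ht) (n + 1)
      rw [← hZ] at htt
      have h1 : Real.exp (-(s * LL lam (n + 1))) = Real.exp (-(6 / 5 * s * LL lam n)) := by
        rw [LL_succ]; congr 1; ring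
      rw [h1] at htt
      have h2 : EE lam n ≤ Cε * Real.exp (-(6 / 5 * s * LL lam n)) := by
        refine (hE n).trans (mul_le_mul_of_nonneg_left (Real.exp_le_exp.mpr ?_) hCε)
        nlinarith
      have hc2 : cf ψ ρ (MM lam) (EE lam) (u t) ^ 2 ≤ Cc ^ 2 := by
        rw [← sq_abs]; exact pow_le_pow_left₀ (abs_nonneg _) (hc t ht) 2
      have h3 : cf ψ ρ (MM lam) (EE lam) (u t) ^ 2 * EE lam n * (-hf ρ ρ)
          ≤ Cc ^ 2 * (Cε * Real.exp (-(6 / 5 * s * LL lam n))) * (-hf ρ ρ) :=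
        mul_le_mul_of_nonneg_right (mul_le_mul hc2 h2 (EE_pos lam n).le (by positivity)) hβ.le
      have h30 : 0 ≤ cf ψ ρ (MM lam) (EE lam) (u t) ^ 2 * EE lam n * (-hf ρ ρ) := by
        have := EE_pos lam n
        positivity
      have h4 : Real.exp ((5 / 2 - 6 / 5 * s) * LL lam n)
          = MM lam n ^ 5 * Real.exp (-(6 / 5 * s * LL lam n)) := by
        rw [hM5, ← Real.exp_add]; congr 1; ring
      have hM0 : 0 < MM lam n ^ 5 := by have := MM_pos lam n; positivity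
      have e1 : 0 ≤ MM lam n ^ 5 * (cf ψ ρ (MM lam) (EE lam) (u t) ^ 2 * EE lam n * (-hf ρ ρ))
        / ip φ φ := by positivity
      have e2 : 0 ≤ MM lam n ^ 5 * tt φ ψ ρ (MM lam) (EE lam) (u t) (n + 1) / ip φ φ := by
        positivity
      have e3 : MM lam n ^ 5 * (cf ψ ρ (MM lam) (EE lam) (u t) ^ 2 * EE lam n * (-hf ρ ρ))
          / ip φ φ + MM lam n ^ 5 * tt φ ψ ρ (MM lam) (EE lam) (u t) (n + 1) / ip φ φ
          ≤ Y * Real.exp ((5 / 2 - 6 / 5 * s) * LL lam n) := by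
        rw [h4, hY, ← add_div, ← mul_add, div_mul_eq_mul_div]
        refine div_le_div_of_nonneg_right ?_ hF.le
        have e4 : (Cc ^ 2 * Cε * -hf ρ ρ + Z) * (MM lam n ^ 5 * Real.exp (-(6 / 5 * s * LL lam n)))
            = MM lam n ^ 5 * (Cc ^ 2 * (Cε * Real.exp (-(6 / 5 * s * LL lam n))) * (-hf ρ ρ)
              + Z * Real.exp (-(6 / 5 * s * LL lam n))) := by ring
        rw [e4]
        exact mul_le_mul_of_nonneg_left (add_le_add h3 htt) hM0.le
      rw [abs_le]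
      constructor <;> linarith
    · show af φ (MM lam) (u 0) n = 0
      rw [hu.init]; exact G.az n hn2

/-- solutions bounded in the critical space have bounded velocity -/
theorem Good.reg (G : Good φ ρ ψ x₁ ν T lam R c0 vd ks Ns) {T' : ℝ} {u : ℝ → V → V}
    (hu : CSol ν (Fam φ ψ ρ (MM lam) (EE lam)) vd T' u) :
    GSol ν (Fam φ ψ ρ (MM lam) (EE lam)) vd T' u := by
  have P := G.P
  have S := G.S
  have hPT := PP_TF P S
  have hPp := PP_ip_pos P S
  obtain ⟨C, hC⟩ := hu.bdd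
  rcases lt_or_ge T' 0 with hT' | hT'
  · exact ⟨hu.init, hu.mem, ⟨0, fun t ht => by exfalso; linarith [ht.1, ht.2]⟩, hu.eq⟩
  have hpow : ∀ t, ∫ x, ‖u t x‖ ^ (3 : ℝ) = ∫ x, ‖u t x‖ ^ 3 := by
    intro t
    congr 1; ext x
    exact Real.rpow_ofNat _ _
  have hC3 : ∀ t ∈ Set.Icc 0 T', (∫ x, ‖u t x‖ ^ (3 : ℝ)) ^ ((1 : ℝ) / 3) ≤ C ^ ((1 : ℝ) / 3) := by
    intro t ht
    refine Real.rpow_le_rpow (integral_nonneg fun x => by positivity) ?_ (by norm_num)
    rw [hpow]; exact hC t ht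
  have hC0 : 0 ≤ C := (integral_nonneg fun x => by positivity).trans (hC 0 ⟨le_rfl, hT'⟩)
  have hc : ∃ Cc, 0 ≤ Cc ∧ ∀ t ∈ Set.Icc 0 T', |cf ψ ρ (MM lam) (EE lam) (u t)| ≤ Cc := by
    refine ⟨C ^ ((1 : ℝ) / 3) * (∫ x, ‖PP ψ ρ (MM lam) (EE lam) x‖ ^ (3 : ℝ).conjExponent)
      ^ (1 / (3 : ℝ).conjExponent) / ip (PP ψ ρ (MM lam) (EE lam)) (PP ψ ρ (MM lam) (EE lam)),
      ?_, fun t ht => ?_⟩
    · have : 0 ≤ ∫ x, ‖PP ψ ρ (MM lam) (EE lam) x‖ ^ (3 : ℝ).conjExponent :=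
        integral_nonneg fun x => by positivity
      positivity
    · unfold cf
      rw [abs_div, abs_of_pos hPp]
      refine div_le_div_of_nonneg_right ?_ hPp.le
      have hv := (hu.mem t ht).1
      refine (ip_holder (q := 3) (by norm_num) hv.cont hv.cs hPT).trans ?_
      refine mul_le_mul_of_nonneg_right (hC3 t ht) ?_
      exact Real.rpow_nonneg (integral_nonneg fun x => by positivity) _
  obtain ⟨Cc, hCc0, hc⟩ := hc
  obtain ⟨K, hK0, hK⟩ := af_Lq P lam (q := 3) (by norm_num)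
  have ha1 : ∀ t ∈ Set.Icc 0 T', ∀ n, |af φ (MM lam) (u t) n|
      ≤ (K * C ^ ((1 : ℝ) / 3)) * Real.exp (-((1 : ℝ) / 2 * LL lam n)) := by
    intro t ht n
    have hv := (hu.mem t ht).1
    refine (hK _ hv.cont hv.cs n).trans ?_
    have e1 : (3 - 6 / 3 : ℝ) / 2 = 1 / 2 := by norm_num
    rw [e1]
    exact mul_le_mul_of_nonneg_right (mul_le_mul_of_nonneg_left (hC3 t ht) hK0)
      (Real.exp_pos _).le
  obtain ⟨K1, hK1, ha2⟩ := G.boot hu hc (s := 1) le_rfl (by norm_num) (by positivity) ha1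
  have e2 : ((12 : ℝ) / 5 * 1 - 1) / 2 = (7 / 5) / 2 := by norm_num
  rw [e2] at ha2
  obtain ⟨K2, hK2, ha3⟩ := G.boot hu hc (s := 7 / 5) (by norm_num) (by norm_num) hK1 ha2
  have e3 : ((12 : ℝ) / 5 * (7 / 5) - 1) / 2 = (59 / 25) / 2 := by norm_num
  rw [e3] at ha3
  obtain ⟨K3, hK3, ha4⟩ := G.boot hu hc (s := 59 / 25) (by norm_num) (by norm_num) hK2 ha3
  have e4 : ((12 : ℝ) / 5 * (59 / 25) - 1) / 2 = 583 / 250 := by norm_num
  rw [e4] at ha4
  obtain ⟨B0, hB0, hB0'⟩ := cs_bound hPT.cont (R := sr ψ) (PP_zero P S)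
  obtain ⟨b0, hb0, hb0'⟩ := cs_bound P.φT.cont (R := 3 / 4) P.φ0
  refine ⟨hu.init, hu.mem, ⟨Cc * B0 + 2 * (K3 * b0), fun t ht => ?_⟩, hu.eq⟩
  have hv := (hu.mem t ht).1
  refine bound_of_ne (by have := hv.cont; fun_prop) fun x hx => ?_
  obtain ⟨n, hn⟩ := exists_rad S hx
  rw [rep P S (hu.mem t ht) n x (by linarith [S.rad_pos n])]
  refine (norm_add_le _ _).trans (add_le_add ?_ ?_)
  · rw [norm_smul, Real.norm_eq_abs]
    exact mul_le_mul (hc t ht) (hB0' x) (norm_nonneg _) hCc0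
  · have h1 : ∀ m ∈ range n, ‖af φ (MM lam) (u t) m • sc (MM lam m) φ x‖
        ≤ K3 * b0 * Real.exp (-(4 / 5 * LL lam m)) := by
      intro m _
      have hM := MM_pos lam m
      have hL := L_ge_of S m
      have e3 : MM lam m ^ 3 = Real.exp (3 / 2 * LL lam m) := by
        rw [MM_pow]; congr 1; push_cast; ring
      rw [norm_smul, Real.norm_eq_abs]
      unfold sc
      rw [norm_smul, Real.norm_eq_abs, abs_of_pos (show 0 < MM lam m ^ 3 by positivity), e3]
      calc |af φ (MM lam) (u t) m| * (Real.exp (3 / 2 * LL lam m) * ‖φ (MM lam m ^ 2 • x)‖)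
          ≤ (K3 * Real.exp (-(583 / 250 * LL lam m))) * (Real.exp (3 / 2 * LL lam m) * b0) := by
            refine mul_le_mul (ha4 t ht m) ?_ (by positivity) (by positivity)
            exact mul_le_mul_of_nonneg_left (hb0' _) (Real.exp_pos _).le
        _ = K3 * b0 * Real.exp (-(583 / 250 * LL lam m) + 3 / 2 * LL lam m) := by
            rw [Real.exp_add]; ring
        _ ≤ _ := by
            refine mul_le_mul_of_nonneg_left (Real.exp_le_exp.mpr ?_) (by positivity)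
            linarith
    refine (norm_sum_le _ _).trans ((sum_le_sum h1).trans ?_)
    rw [← mul_sum]
    have h2 := geo_tail S (s := 4 / 5) (by norm_num) (Nat.zero_le n)
    rw [← Finset.range_eq_Ico] at h2
    have h3 : Real.exp (-(4 / 5 * LL lam 0)) ≤ 1 := by
      rw [Real.exp_le_one_iff]
      have := L_ge_of S 0
      linarith
    have h4 := mul_le_mul_of_nonneg_left h2 (by positivity : 0 ≤ K3 * b0)
    have h5 := mul_le_mul_of_nonneg_left h3 (by positivity : 0 ≤ 2 * (K3 * b0))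
    linarith

/-- solutions with bounded velocity are bounded in the critical space -/
theorem GSol.toCSol {ν T' : ℝ} {Φ : ℕ → V → V} {u0 : V → V} {u : ℝ → V → V}
    (h : GSol ν Φ u0 T' u) {r : ℝ} (hr : ∀ t ∈ Set.Icc 0 T', ∀ x, r < ‖x‖ → u t x = 0) :
    CSol ν Φ u0 T' u := by
  obtain ⟨C, hC⟩ := h.bdd
  refine ⟨h.init, h.mem, ⟨|C| ^ 3 * vr r, fun t ht => ?_⟩, h.eq⟩
  refine (le_abs_self _).trans ?_
  refine int_le_vr (fun x _ => ?_) (fun x hx => by rw [hr t ht x hx]; simp)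
  rw [abs_of_nonneg (by positivity)]
  exact pow_le_pow_left₀ (norm_nonneg _) ((hC t ht x).trans (le_abs_self _)) 3

theorem InX_out (P : Prof φ ρ ψ x₁) (S : Scl (MM lam) (EE lam)) {v : V → V}
    (hv : InX (Fam φ ψ ρ (MM lam) (EE lam)) v) (x : V) (hx : sr ψ < ‖x‖) : v x = 0 := by
  have h0 := S.rad_half 0
  have h1 := sr_ge ψ
  rw [rep P S hv 0 x (by linarith), PP_zero P S x hx]
  simp

end

end Pool.Agent.H402W
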