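import Mathlib
import Pool.Agent.H402W.Blow
import Pool.Agent.H402W.Profile
import Pool.Agent.H402W.Trans
import Pool.Agent.H402W.Extra
import Pool.Agent.H402W.Proj
import Pool.Agent.H402W.Reg
import Pool.Agent.H402W.Joint

/-! Blow-up near arbitrary data. -/

open Set MeasureTheory Filter Topology
open scoped RealInnerProductSpace ContDiff

namespace Pool.Agent.H402W

theorem ip_self_pos {w : V → V} (hw : TF w) {x : V} (hx : w x ≠ 0) : 0 < ip w w := by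
  unfold ip
  have hcs : HasCompactSupport fun x => ⟪w x, w x⟫ := by
    obtain ⟨r, hr⟩ := hw.out
    exact HasCompactSupport.intro (isCompact_closedBall (0 : V) r) fun x hx => by
      simp [(hr x (by simpa using hx)).1]
  have hc := hw.cont
  refine Continuous.integral_pos_of_hasCompactSupport_nonneg_nonzero (by fun_prop) hcs
    (fun x => real_inner_self_nonneg) (x := x) ?_
  exact (real_inner_self_pos.mpr hx).ne'

theorem PBd.trans {Φ : ℕ → V → V} {K : ℝ} (h : PBd Φ K) {l : ℝ} (hl : 0 < l) (p : V) :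
    PBd (fun k => Tr l p (Φ k)) K := by
  intro N f v hf hfc hv hvk
  have hli : 0 < l⁻¹ := by positivity
  have hf' : Continuous (Tr l⁻¹ (-(l • p)) f) := by unfold Tr; fun_prop
  have hv' : Tr l⁻¹ (-(l • p)) v ∈ Submodule.span ℝ (Φ '' Set.Iio N) := by
    have h1 := Submodule.mem_map_of_mem (f := TrL l⁻¹ (-(l • p))) hv
    rw [← Submodule.span_image, ← image_comp] at h1
    have h2 : (⇑(TrL l⁻¹ (-(l • p))) ∘ fun k => Tr l p (Φ k)) = Φ := by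
      funext k; exact Tr_inv hl _
    rw [h2] at h1
    exact h1
  obtain ⟨h1, h2⟩ := h N _ _ hf' (Tr_cs hli hfc) hv' (fun k hk => by
    have e1 : Φ k = Tr l⁻¹ (-(l • p)) (Tr l p (Φ k)) := (Tr_inv hl _).symm
    rw [e1, Tr_ip hli, Tr_ip hli]
    have := hvk k hk
    rw [this])
  constructor
  · intro B hB x
    have h3 := h1 (l⁻¹ * B) (fun y => by
      unfold Tr
      rw [norm_smul, Real.norm_eq_abs, abs_of_pos hli]
      exact mul_le_mul_of_nonneg_left (hB _) hli.le) (l • (x - p))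
    rw [← Tr_inv' (l := l) (p := p) hl v]
    unfold Tr at h3 ⊢
    rw [norm_smul, Real.norm_eq_abs, abs_of_pos hl]
    have h4 := mul_le_mul_of_nonneg_left h3 hl.le
    refine h4.trans (le_of_eq ?_)
    field_simp
  · rw [Tr_norm_int hli, Tr_norm_int hli] at h2
    have h5 : 0 < (l⁻¹ ^ 2)⁻¹ := by positivity
    refine le_of_mul_le_mul_left ?_ h5
    linarith

theorem CSol.trans {l : ℝ} {p : V} (hl : 0 < l) {ν T : ℝ} {Φ : ℕ → V → V}
    (hΦ : ∀ k, Differentiable ℝ (Φ k)) {u0 : V → V} {u : ℝ → V → V} (h : CSol ν Φ u0 T u) :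
    CSol ν (fun k => Tr l p (Φ k)) (Tr l p u0) (T / l ^ 2) (fun t => Tr l p (u (l ^ 2 * t))) := by
  have hmem : ∀ t ∈ Icc 0 (T / l ^ 2), l ^ 2 * t ∈ Icc 0 T := by
    intro t ht
    have hl2 : 0 < l ^ 2 := by positivity
    have h2 := ht.2
    rw [le_div_iff₀ hl2] at h2
    exact ⟨mul_nonneg hl2.le ht.1, by linarith⟩
  constructor
  · simp only [mul_zero]
    rw [h.init]
  · intro t ht
    exact (h.mem _ (hmem t ht)).trans hl
  · obtain ⟨C, hC⟩ := h.bdd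
    refine ⟨C, fun t ht => ?_⟩
    rw [Tr_cube_int hl]
    exact hC _ (hmem t ht)
  · intro k t ht
    have h1 := h.eq k (l ^ 2 * t) (hmem t ht)
    have h2 : HasDerivWithinAt (fun s : ℝ => l ^ 2 * s) (l ^ 2) (Icc 0 (T / l ^ 2)) t := by
      simpa using ((hasDerivAt_id t).const_mul (l ^ 2)).hasDerivWithinAt
    have h3 := h1.scomp t h2 (fun s hs => hmem s hs)
    have h4 := h3.const_mul l⁻¹
    have hd := (h.mem _ (hmem t ht)).1.diff
    refine (h4.congr_deriv ?_).congr (fun s _ => ?_) ?_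
    · rw [Tr_tri hl (hΦ k), Tr_dir hl hd (hΦ k), smul_eq_mul]
      field_simp
    · rw [Tr_ip hl]; rfl
    · rw [Tr_ip hl]; rfl

/-- blow-up, after translation and dilation -/
theorem Good.blow {φ ρ ψ : V → V} {x₁ : V} {ν T lam R c0 : ℝ} {vd : V → V} {ks Ns : ℕ}
    (G : Good φ ρ ψ x₁ ν T lam R c0 vd ks Ns) {l : ℝ} (hl1 : 1 ≤ l) (p : V) {η : ℝ}
    (hTη : T < η) :
      ∃ (Ts : ℝ) (u : ℝ → V → V), 0 < Ts ∧ Ts < η ∧
        ContDiffOn ℝ ∞ (fun z : ℝ × V => u z.1 z.2) (Ioo 0 Ts ×ˢ univ) ∧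
        ContinuousOn (fun z : ℝ × V => u z.1 z.2) (Ico 0 Ts ×ˢ univ) ∧
        (∀ T, 0 ≤ T → T < Ts → CSol ν (fun k => Tr l p (Fam φ ψ ρ (MM lam) (EE lam) k)) (Tr l p vd) T u ∧ ∃ C, ∀ t ∈ Icc 0 T, ∀ x, ‖u t x‖ ≤ C) ∧
        (∀ t, 0 ≤ t → t < Ts → ContDiff ℝ ∞ (u t) ∧
          ip (u t) (u t) + 2 * ν * ∫ s in (0)..t, dir (u s) (u s) = ip (Tr l p vd) (Tr l p vd)) ∧
        (∀ C, ∃ t, 0 ≤ t ∧ t < Ts ∧ ∃ x, C < ‖u t x‖) ∧
        (∀ q : ℝ, 2 < q → ∀ C, ∃ t, 0 ≤ t ∧ t < Ts ∧ C < ∫ x, ‖u t x‖ ^ q) ∧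
        (∀ δ > 0, ∃ C, ∀ t, 0 ≤ t → t < Ts → ∀ x, δ ≤ ‖x - p‖ → ‖u t x‖ ≤ C) ∧
        (∀ T v, 0 ≤ T → CSol ν (fun k => Tr l p (Fam φ ψ ρ (MM lam) (EE lam) k)) (Tr l p vd) T v → T < Ts ∧ ∀ t ∈ Icc 0 T, v t = u t) := by
  have P := G.P
  have hSc := G.S
  have hν := G.ν_pos
  have hl : 0 < l := by linarith
  have hli : 0 < l⁻¹ := by positivity
  have hl2 : 0 < l ^ 2 := by positivity
  set Φ₀ := Fam φ ψ ρ (MM lam) (EE lam) with hΦ₀
  have hΦT : ∀ k, TF (Φ₀ k) := fun k => Fam_TF P hSc k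
  obtain ⟨Ts, u, h1, h1', h2, h3, h4, h5⟩ := G.maximal
  refine ⟨Ts / l ^ 2, fun t => Tr l p (u (l ^ 2 * t)), by positivity, ?_,
    Tr_joint hl (joint_union fun T' _ hT' => G.joint (hT'.le.trans h1') (h2 T' ‹_› hT')),
    Tr_jointC hl (jointC_union fun T' h0 hT' => G.jointC h0 (hT'.le.trans h1') (h2 T' h0 hT')),
    ?_, ?_, ?_, ?_, ?_, ?_⟩
  · rw [div_lt_iff₀ hl2]
    have e0 : 0 < η := G.T_pos.trans hTη
    have e2 : η ≤ η * l ^ 2 := le_mul_of_one_le_right e0.le (by nlinarith)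
    linarith
  · intro T' hT'0 hT'
    rw [lt_div_iff₀ hl2] at hT'
    have e0 := h2 (T' * l ^ 2) (by positivity) hT'
    have e1 := (e0.toCSol (r := sr ψ) (fun t ht x hx => InX_out P hSc (e0.mem t ht) x hx)).trans
      (p := p) hl (fun k => (hΦT k).diff)
    rw [mul_div_assoc, div_self hl2.ne', mul_one] at e1
    refine ⟨e1, ?_⟩
    obtain ⟨C, hC⟩ := e0.bdd
    refine ⟨l * C, fun t ht x => ?_⟩
    beta_reduce
    unfold Tr
    rw [norm_smul, Real.norm_eq_abs, abs_of_pos hl]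
    exact mul_le_mul_of_nonneg_left (hC _ ⟨mul_nonneg hl2.le ht.1, by
      have := mul_le_mul_of_nonneg_left ht.2 hl2.le
      linarith⟩ _) hl.le
  · intro t ht0 ht
    rw [lt_div_iff₀ hl2] at ht
    have ht' : l ^ 2 * t < Ts := by linarith
    have ht0' : 0 ≤ l ^ 2 * t := by positivity
    refine ⟨Tr_cd (h3 (l ^ 2 * t) ht0' ht'), ?_⟩
    have hs := h2 (l ^ 2 * t) ht0' ht'
    have e1 := G.energy ht0' (ht'.le.trans h1') hs ⟨ht0', le_rfl⟩
    have e2 : ∫ s in (0)..t, dir (Tr l p (u (l ^ 2 * s))) (Tr l p (u (l ^ 2 * s)))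
        = ∫ s in (0)..t, l * dir (u (l ^ 2 * s)) (u (l ^ 2 * s)) := by
      refine intervalIntegral.integral_congr fun s hs' => ?_
      rw [uIcc_of_le ht0] at hs'
      have hd := (hs.mem (l ^ 2 * s) ⟨mul_nonneg hl2.le hs'.1,
        mul_le_mul_of_nonneg_left hs'.2 hl2.le⟩).1.diff
      exact Tr_dir hl hd hd
    have e3 : ∫ s in (0)..t, l * dir (u (l ^ 2 * s)) (u (l ^ 2 * s))
        = l * ((l ^ 2)⁻¹ * ∫ s in (0)..(l ^ 2 * t), dir (u s) (u s)) := by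
      rw [intervalIntegral.integral_const_mul,
        intervalIntegral.integral_comp_mul_left (fun s => dir (u s) (u s)) hl2.ne', mul_zero,
        smul_eq_mul]
    beta_reduce
    rw [e2, e3, Tr_ip hl, Tr_ip hl, ← e1]
    field_simp
  · intro C
    obtain ⟨t, ht0, ht, x, hx⟩ := G.vel_unbdd h1 h2 h4 (C / l)
    refine ⟨t / l ^ 2, by positivity, div_lt_div_of_pos_right ht hl2, l⁻¹ • x + p, ?_⟩
    have e1 : l ^ 2 * (t / l ^ 2) = t := by field_simp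
    beta_reduce
    unfold Tr
    rw [e1, add_sub_cancel_right, smul_smul, mul_inv_cancel₀ hl.ne', one_smul, norm_smul,
      Real.norm_eq_abs, abs_of_pos hl]
    rw [div_lt_iff₀ hl] at hx
    linarith
  · intro q hq C
    have hlq : 0 < l ^ q * (l ^ 3)⁻¹ := mul_pos (Real.rpow_pos_of_pos hl q) (by positivity)
    obtain ⟨t, ht0, ht, hx⟩ := G.Lq_unbdd h1 h1' h2 h4 hq (C / (l ^ q * (l ^ 3)⁻¹))
    refine ⟨t / l ^ 2, by positivity, div_lt_div_of_pos_right ht hl2, ?_⟩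
    have e1 : l ^ 2 * (t / l ^ 2) = t := by field_simp
    beta_reduce
    rw [e1, Tr_pow_int hl]
    rw [div_lt_iff₀ hlq] at hx
    linarith
  · intro δ hδ
    obtain ⟨C, hC⟩ := G.away (δ := l * δ) (by positivity)
    refine ⟨l * C, fun t ht0 ht x hx => ?_⟩
    rw [lt_div_iff₀ hl2] at ht
    have ht' : l ^ 2 * t < Ts := by linarith
    have ht0' : 0 ≤ l ^ 2 * t := by positivity
    unfold Tr
    rw [norm_smul, Real.norm_eq_abs, abs_of_pos hl]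
    refine mul_le_mul_of_nonneg_left ?_ hl.le
    refine hC _ u ht0' (ht'.le.trans h1') (h2 _ ht0' ht') _ ⟨ht0', le_rfl⟩ _ ?_
    rw [norm_smul, Real.norm_eq_abs, abs_of_pos hl]
    exact mul_le_mul_of_nonneg_left hx hl.le
  · intro T' v hT'0 hv
    have e1 := hv.trans (p := -(l • p)) hli (fun k => (Tr_TF hl (hΦT k)).diff)
    have e2 : (fun k => Tr l⁻¹ (-(l • p)) (Tr l p (Φ₀ k))) = Φ₀ := by
      funext k; exact Tr_inv hl _
    have e3 : T' / l⁻¹ ^ 2 = l ^ 2 * T' := by field_simp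
    rw [e2, Tr_inv hl, e3] at e1
    obtain ⟨e4, e5⟩ := h5 (l ^ 2 * T') _ (by positivity) (G.reg e1)
    refine ⟨by rw [lt_div_iff₀ hl2]; linarith, fun t ht => ?_⟩
    have e6 := e5 (l ^ 2 * t) ⟨mul_nonneg hl2.le ht.1, mul_le_mul_of_nonneg_left ht.2 hl2.le⟩
    have e7 : l⁻¹ ^ 2 * (l ^ 2 * t) = t := by field_simp
    rw [e7] at e6
    beta_reduce
    rw [← e6, Tr_inv' hl]


theorem Tr_span_inv {Φ : ℕ → V → V} {l : ℝ} (hl : 0 < l) {p : V} {v : V → V}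
    (hv : v ∈ Submodule.span ℝ (range fun k => Tr l p (Φ k))) :
    Tr l⁻¹ (-(l • p)) v ∈ Submodule.span ℝ (range Φ) := by
  have h1 := Tr_span (l := l⁻¹) (p := -(l • p)) hv
  have h2 : (fun k => Tr l⁻¹ (-(l • p)) (Tr l p (Φ k))) = Φ := by
    funext k; exact Tr_inv hl _
  rwa [h2] at h1

/-- blow-up from a dense set of data, in one Galerkin space and for all viscosities -/
theorem final (w : V → V) (hw : ContDiff ℝ ∞ w) (hwc : HasCompactSupport w)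
    (hwd : ∀ x, divg w x = 0) (p : V) (hp : p ∉ tsupport w) (ε : ℝ) (hε : 0 < ε) :
    ∃ Φ : ℕ → V → V,
      (∀ k, ContDiff ℝ ∞ (Φ k) ∧ HasCompactSupport (Φ k) ∧ (∀ x, divg (Φ k) x = 0) ∧
        0 < ip (Φ k) (Φ k)) ∧
      (∀ j k, j ≠ k → ip (Φ j) (Φ k) = 0) ∧ (∃ K, PBd Φ K) ∧
      (∃ (φ : V → V) (κ r : ℕ → ℝ), ∀ n x, Φ (n + 1) x = κ n • φ (r n • (x - p))) ∧
      (∀ x, ε ≤ ‖x - p‖ → Φ 0 x = w x ∧ ∀ n, Φ (n + 1) x = 0) ∧
      ip (Φ 0 - w) (Φ 0 - w) < ε ∧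
      ∀ v ∈ Submodule.span ℝ (range Φ), ∀ ν₀ > 0, ∀ η > 0,
      ∃ u₀ ∈ Submodule.span ℝ (range Φ), ip (u₀ - v) (u₀ - v) < η ∧
      (ip v (Φ 0) ≠ 0 → ∀ x, η ≤ ‖x - p‖ → u₀ x = v x) ∧
      ∀ ν, 0 < ν → ν ≤ ν₀ →
      ∃ (Ts : ℝ) (u : ℝ → V → V), 0 < Ts ∧ Ts < η ∧
        ContDiffOn ℝ ∞ (fun z : ℝ × V => u z.1 z.2) (Ioo 0 Ts ×ˢ univ) ∧
        ContinuousOn (fun z : ℝ × V => u z.1 z.2) (Ico 0 Ts ×ˢ univ) ∧
        (∀ T, 0 ≤ T → T < Ts → CSol ν Φ u₀ T u ∧ ∃ C, ∀ t ∈ Icc 0 T, ∀ x, ‖u t x‖ ≤ C) ∧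
        (∀ t, 0 ≤ t → t < Ts → ContDiff ℝ ∞ (u t) ∧
          ip (u t) (u t) + 2 * ν * ∫ s in (0)..t, dir (u s) (u s) = ip u₀ u₀) ∧
        (∀ C, ∃ t, 0 ≤ t ∧ t < Ts ∧ ∃ x, C < ‖u t x‖) ∧
        (∀ q : ℝ, 2 < q → ∀ C, ∃ t, 0 ≤ t ∧ t < Ts ∧ C < ∫ x, ‖u t x‖ ^ q) ∧
        (∀ δ > 0, ∃ C, ∀ t, 0 ≤ t → t < Ts → ∀ x, δ ≤ ‖x - p‖ → ‖u t x‖ ≤ C) ∧
        (∀ T v, 0 ≤ T → CSol ν Φ u₀ T v → T < Ts ∧ ∀ t ∈ Icc 0 T, v t = u t) := by
  obtain ⟨φ, ρ, ψ₀, x₁, P₀⟩ := exists_prof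
  have hwT : TF w := ⟨hw.of_le (by exact_mod_cast le_top), hwc, hwd⟩
  obtain ⟨r, hr, hwr⟩ : ∃ r > 0, ∀ x, ‖x - p‖ < r → w x = 0 := by
    have h1 : (tsupport w)ᶜ ∈ 𝓝 p := (isClosed_tsupport w).isOpen_compl.mem_nhds hp
    obtain ⟨r, hr, h2⟩ := Metric.mem_nhds_iff.mp h1
    refine ⟨r, hr, fun x hx => image_eq_zero_of_notMem_tsupport (h2 ?_)⟩
    simpa [dist_eq_norm] using hx
  have hF := φ_pos P₀
  have hv1 := vr_nonneg 1
  have hψ₀ := P₀.ψ_pos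
  have hsr := sr_ge ψ₀
  set K := 2 * (vr 1 + ip ψ₀ ψ₀) with hK
  have hK0 : 0 ≤ K := by positivity
  set l := 1 + 5 / 4 / r + (K + sr ψ₀ + 1) / ε with hldef
  have hl1 : 1 ≤ l := by
    have h1 : 0 ≤ 5 / 4 / r := by positivity
    have h2 : 0 ≤ (K + sr ψ₀ + 1) / ε := by positivity
    linarith
  have hl : 0 < l := by linarith
  have hlr : 5 / 4 ≤ l * r := by
    have h1 : 5 / 4 / r ≤ l := by
      have h2 : 0 ≤ (K + sr ψ₀ + 1) / ε := by positivity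
      linarith
    rwa [div_le_iff₀ hr] at h1
  have hlε : K + sr ψ₀ + 1 ≤ l * ε := by
    have h1 : (K + sr ψ₀ + 1) / ε ≤ l := by
      have h2 : 0 ≤ 5 / 4 / r := by positivity
      linarith
    rwa [div_le_iff₀ hε] at h1
  have hli : 0 < l⁻¹ := by positivity
  set χ := Tr l⁻¹ (-(l • p)) w with hχ
  have hχT : TF χ := Tr_TF hli hwT
  obtain ⟨ψ, P, hψ1, hψ2⟩ : ∃ ψ, Prof φ ρ ψ x₁ ∧ (∀ x, sr ψ₀ < ‖x‖ → ψ x = χ x) ∧
      ip (ψ - χ) (ψ - χ) ≤ ip ψ₀ ψ₀ := by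
    by_cases h0 : ∃ y, w y ≠ 0
    · obtain ⟨y, hy⟩ := h0
      refine ⟨χ, P₀.change (Tr_cd hw) (Tr_cs hli hwc) hχT.dv ?_ ?_, fun x _ => rfl, ?_⟩
      · intro x hx
        rw [hχ]
        unfold Tr
        rw [hwr, smul_zero]
        have h1 : l⁻¹ • (x - -(l • p)) - p = l⁻¹ • x := by
          rw [sub_neg_eq_add, smul_add, smul_smul, inv_mul_cancel₀ hl.ne', one_smul,
            add_sub_cancel_right]
        rw [h1, norm_smul, Real.norm_eq_abs, abs_of_pos hli]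
        rw [inv_mul_lt_iff₀ hl]
        linarith
      · rw [hχ, Tr_ip hli]
        have := ip_self_pos hwT hy
        positivity
      · have : ip (χ - χ) (χ - χ) = 0 := by unfold ip; simp
        rw [this]
        exact hψ₀.le
    · push Not at h0
      have hχ0 : ∀ x, χ x = 0 := fun x => by rw [hχ]; unfold Tr; rw [h0, smul_zero]
      refine ⟨ψ₀, P₀, fun x hx => ?_, ?_⟩
      · rw [hχ0, P₀.ψ0' x hx]
      · have : ψ₀ - χ = ψ₀ := by ext1 x; simp [hχ0]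
        rw [this]
  obtain ⟨lam, St, htail⟩ := exists_stat P
  have hSc := St.S
  set Φ₀ := Fam φ ψ ρ (MM lam) (EE lam) with hΦ₀
  have hΦT : ∀ k, TF (Φ₀ k) := fun k => Fam_TF P hSc k
  have hΦs : ∀ k, ContDiff ℝ ∞ (Φ₀ k) := fun k => by
    cases k with
    | zero => exact PP_smooth P hSc
    | succ n => exact sc_cd P.φs
  have hPp : 0 < ip (Φ₀ 0) (Φ₀ 0) := PP_ip_pos P hSc
  have hΦp : ∀ k, 0 < ip (Φ₀ k) (Φ₀ k) := fun k => by
    cases k with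
    | zero => exact hPp
    | succ n =>
      show 0 < ip (sc (MM lam n) φ) (sc (MM lam n) φ)
      rw [sc_ip (hSc.M_pos n)]
      exact hF
  have hwχ : Tr l p χ = w := Tr_inv' hl w
  obtain ⟨Kp, hKp⟩ := Fam_PBd P hSc
  refine ⟨fun k => Tr l p (Φ₀ k),
    fun k => ⟨Tr_cd (hΦs k), Tr_cs hl (hΦT k).cs, (Tr_TF hl (hΦT k)).dv, ?_⟩, fun j k hjk => ?_,
    ⟨Kp, hKp.trans hl p⟩, ⟨φ, fun n => l * MM lam n ^ 3, fun n => MM lam n ^ 2 * l, ?_⟩, ?_,
    ?_, fun v hv ν₀ hν₀ η hη => ?_⟩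
  · rw [Tr_ip hl]
    exact mul_pos hli (hΦp k)
  · rw [Tr_ip hl, hΦ₀, Fam_orth P hSc j k hjk, mul_zero]
  · intro n x
    show l • (MM lam n ^ 3 • φ (MM lam n ^ 2 • (l • (x - p)))) = _
    rw [smul_smul, smul_smul]
  · intro x hx
    have e1 : sr ψ₀ < ‖l • (x - p)‖ := by
      rw [norm_smul, Real.norm_eq_abs, abs_of_pos hl]
      have := mul_le_mul_of_nonneg_left hx hl.le
      linarith
    have hr0 := hSc.rad_half 0
    constructor
    · have e2 : Tr l p (Φ₀ 0) x = Tr l p χ x := by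
        show l • PP ψ ρ (MM lam) (EE lam) (l • (x - p)) = l • χ (l • (x - p))
        rw [PP_out P hSc 0 _ (by linarith), Pn_apply, ← hψ1 _ e1]
        simp
      beta_reduce
      rw [e2, hwχ]
    · intro n
      have hrn := hSc.rad_half n
      show l • sc (MM lam n) φ (l • (x - p)) = 0
      rw [φ_out P hSc n _ (by linarith), smul_zero]
  · have e1 : Tr l p (Φ₀ 0) - w = Tr l p (Φ₀ 0 - χ) := by
      rw [Tr_sub, hwχ]
    beta_reduce
    rw [e1, Tr_ip hl]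
    have hc := (hΦT 0).sub P.ψT
    have e4 : ip (Φ₀ 0 - ψ) (Φ₀ 0 - ψ) ≤ 1 * vr 1 := by
      refine (le_abs_self _).trans ?_
      unfold ip
      refine int_le_vr (fun x _ => ?_) (fun x hx => ?_)
      · rw [real_inner_self_eq_norm_sq, abs_of_nonneg (sq_nonneg _)]
        have h1 : ‖(Φ₀ 0 - ψ) x‖ ≤ 1 := htail x
        nlinarith [norm_nonneg ((Φ₀ 0 - ψ) x)]
      · have h0 := hSc.rad_half 0
        have : (Φ₀ 0 - ψ) x = 0 := by
          rw [Pi.sub_apply]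
          show PP ψ ρ (MM lam) (EE lam) x - ψ x = 0
          rw [PP_out P hSc 0 x (by linarith), Pn_apply]
          simp
        rw [this]; simp
    have e2 : ip (Φ₀ 0 - χ) (Φ₀ 0 - χ) ≤ K := by
      have e3 : Φ₀ 0 - χ = (Φ₀ 0 - ψ) + (ψ - χ) := by abel
      rw [e3]
      refine (ip_add_le hc (P.ψT.sub hχT)).trans ?_
      linarith
    rw [inv_mul_lt_iff₀ hl]
    linarith
  -- the datum
  set v' := Tr l⁻¹ (-(l • p)) v with hv'
  have hvm : v' ∈ Submodule.span ℝ (range Φ₀) := Tr_span_inv hl hv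
  have hvT : TF v' := span_TF hΦT hvm
  have hvv : Tr l p v' = v := Tr_inv' hl v
  obtain ⟨v'', hm, hc, hd, hsame⟩ : ∃ v'' ∈ Submodule.span ℝ (range Φ₀),
      cf ψ ρ (MM lam) (EE lam) v'' ≠ 0 ∧ ip (v'' - v') (v'' - v') ≤ η / 8 ∧
      (ip v (Tr l p (Φ₀ 0)) ≠ 0 → v'' = v') := by
    have key : ip v (Tr l p (Φ₀ 0)) = l⁻¹ * ip v' (Φ₀ 0) := by
      rw [← hvv, Tr_ip hl]
    by_cases h0 : ip v' (Φ₀ 0) = 0
    · have hcv : cf ψ ρ (MM lam) (EE lam) v' = 0 := by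
        unfold cf
        have : ip v' (PP ψ ρ (MM lam) (EE lam)) = 0 := h0
        rw [this, zero_div]
      set s := Real.sqrt (η / 8 / ip (Φ₀ 0) (Φ₀ 0)) with hs
      have hs0 : 0 < s := Real.sqrt_pos.mpr (by positivity)
      have hs2 : s ^ 2 = η / 8 / ip (Φ₀ 0) (Φ₀ 0) := Real.sq_sqrt (by positivity)
      refine ⟨v' + s • Φ₀ 0, Submodule.add_mem _ hvm (Submodule.smul_mem _ _
        (Submodule.subset_span ⟨0, rfl⟩)), ?_, ?_, fun h => absurd (by rw [key, h0, mul_zero]) h⟩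
      · have := cf_add P hSc hvT s
        rw [hcv, zero_add] at this
        show cf ψ ρ (MM lam) (EE lam) (v' + s • PP ψ ρ (MM lam) (EE lam)) ≠ 0
        rw [this]; exact hs0.ne'
      · rw [add_sub_cancel_left, ip_smul_left, ip_smul_right]
        have : s * (s * ip (Φ₀ 0) (Φ₀ 0)) = s ^ 2 * ip (Φ₀ 0) (Φ₀ 0) := by ring
        rw [this, hs2, div_mul_cancel₀ _ hPp.ne']
    · refine ⟨v', hvm, ?_, ?_, fun _ => rfl⟩
      · unfold cf
        exact div_ne_zero h0 hPp.ne'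
      · rw [sub_self]
        have : ip (0 : V → V) 0 = 0 := by unfold ip; simp
        rw [this]; positivity
  obtain ⟨T, R, r', d, ks, Ns, hT, hrad, hrd, G'⟩ := exists_good St hm hc hν₀
    (show 0 < η / 8 by positivity)
  have hWT := pert_TF P hSc r' d ks
  have hvT'' : TF v'' := span_TF hΦT hm
  have hspan : v'' + pert φ (MM lam) r' d ks ∈ Submodule.span ℝ (range Φ₀) :=
    (G' ν₀ hν₀ le_rfl).vm
  refine ⟨Tr l p (v'' + pert φ (MM lam) r' d ks), Tr_span hspan, ?_, fun hne x hx => ?_,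
    fun ν hν hνν => (G' ν hν hνν).blow hl1 p (by linarith)⟩
  · have e1 : Tr l p (v'' + pert φ (MM lam) r' d ks) - v
        = Tr l p ((v'' - v') + pert φ (MM lam) r' d ks) := by
      rw [← hvv, ← Tr_sub]
      congr 1
      abel
    rw [e1, Tr_ip hl]
    have e2 := ip_add_le (hvT''.sub hvT) hWT
    rw [pert_ip P hSc] at e2
    have e3 : ip (v'' - v' + pert φ (MM lam) r' d ks) (v'' - v' + pert φ (MM lam) r' d ks)
        ≤ η / 2 := by linarith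
    rw [inv_mul_lt_iff₀ hl]
    have e4 : η ≤ l * η := le_mul_of_one_le_left hη.le hl1
    linarith
  · have e0 := hsame hne
    rw [e0]
    have e1 : η ≤ ‖l • (x - p)‖ := by
      rw [norm_smul, Real.norm_eq_abs, abs_of_pos hl]
      have h1 := mul_le_mul_of_nonneg_left hx hl.le
      have h2 : η ≤ l * η := le_mul_of_one_le_left hη.le hl1
      linarith
    have hr1 := hSc.rad_anti (Nat.le_succ ks)
    have hr0 := hSc.rad_pos (ks + 1)
    have hr2 : rad (MM lam) (ks + 1) ≤ rad (MM lam) ks := hr1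
    have e2 : pert φ (MM lam) r' d ks (l • (x - p)) = 0 := by
      unfold pert
      simp only [Pi.add_apply, Pi.smul_apply]
      rw [φ_out P hSc ks _ (by linarith), φ_out P hSc (ks + 1) _ (by linarith)]
      simp
    calc Tr l p (v' + pert φ (MM lam) r' d ks) x
        = l • (v' (l • (x - p)) + pert φ (MM lam) r' d ks (l • (x - p))) := rfl
      _ = Tr l p v' x := by rw [e2, add_zero]; rfl
      _ = v x := by rw [hvv]

end Pool.Agent.H402W
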